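import Pool.Agent.Helper25.PCap.GoalsA
import Pool.Agent.Helper25.PCap.GoalsF

/-!
# The inclusion property is open to the right (MP_576c25_an, packet A12)
-/

set_option autoImplicit false

open MeasureTheory Set Filter Topology
open scoped ContDiff Real

noncomputable section

namespace Pool.Agent.Helper50.PCap

open Pool.Agent.Helper25.PCap

/-! ### The tail of the expansion -/

theorem norm_md (c : ℕ → ℂ) (n : ℕ) (θ : ℝ) : ‖md c n θ‖ = ‖c n‖ := by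
  unfold md
  rw [norm_mul, Complex.norm_exp_ofReal_mul_I, mul_one]

theorem hasSum_drop {f g : ℕ → ℝ} {S G : ℝ} (hf : HasSum f S) (hg : HasSum g G) (n₀ : ℕ)
    (hfg : ∀ n, n ≠ n₀ → |f n| ≤ g n) (hg0 : 0 ≤ g n₀) : |S - f n₀| ≤ G := by
  have h1 : HasSum (fun n => f n - (if n = n₀ then f n₀ else 0)) (S - f n₀) :=
    hf.sub (hasSum_ite_eq n₀ (f n₀))
  have h2 : ∀ n, ‖f n - (if n = n₀ then f n₀ else 0)‖ ≤ g n := by
    intro n
    by_cases hn : n = n₀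
    · rw [if_pos hn, hn, sub_self, norm_zero]; exact hg0
    · rw [if_neg hn, sub_zero]; exact hfg n hn
  have h3 := tsum_of_norm_bounded hg h2
  rwa [h1.tsum_eq] at h3

theorem aa_mono {κ : ℝ} (hκ : 0 < κ) (hκ1 : κ < 1) (h0 : GExpo) : StrictMono (aa κ) :=
  strictMono_nat_of_lt_succ (h0 κ hκ hκ1).2.2.2.2.1

theorem fexp_tail {κ C0 : ℝ} (hκ : 0 < κ) (hκ1 : κ < 1) (h0 : GExpo) (hC : 0 < C0)
    {u om : ℝ × ℝ → ℝ} {c : ℕ → ℂ} {τ₁ : ℝ} (hF : FExp κ C0 u om c τ₁) :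
    ∃ K : ℝ, 0 ≤ K ∧ ∀ τ θ : ℝ, τ ≤ τ₁ →
      |(u (τ, θ) - C0 * Real.exp ((1 - κ) * τ)) - (md c 2 θ).re * Real.exp (aa κ 2 * τ)| ≤
        K * Real.exp (aa κ 3 * τ) ∧
      |om (τ, θ) - BB κ C0 * (aa κ 2 / 2) * (md c 2 θ).im * Real.exp (bb κ 2 * τ)| ≤
        K * Real.exp (bb κ 3 * τ) := by
  obtain ⟨hs, hc0, hc1, hF⟩ := hF
  obtain ⟨-, -, -, -, -, -, hle, -⟩ := h0 κ hκ hκ1
  have hmono := aa_mono hκ hκ1 h0
  obtain ⟨G, hG⟩ := hs
  have hG0 : 0 ≤ G := hG.nonneg fun n => by positivity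
  have hB : 0 < BB κ C0 := by
    unfold BB
    have : 0 < 1 - κ := by linarith
    positivity
  have ha3 : ∀ n : ℕ, 3 ≤ n → ∀ τ ≤ τ₁,
      Real.exp (aa κ n * τ) ≤ Real.exp (aa κ n * τ₁) * Real.exp (aa κ 3 * (τ - τ₁)) := by
    intro n hn τ hτ
    rw [← Real.exp_add]
    refine Real.exp_le_exp.2 ?_
    have h1 : aa κ 3 ≤ aa κ n := hmono.monotone hn
    nlinarith [mul_nonneg (sub_nonneg.2 h1) (sub_nonneg.2 hτ)]
  have hcub : ∀ n : ℕ, (1 : ℝ) ≤ ((n : ℝ) + 1) ^ 3 := fun n =>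
    one_le_pow₀ (by have : (0 : ℝ) ≤ n := Nat.cast_nonneg n; linarith)
  have haa0 : ∀ n : ℕ, 0 ≤ aa κ n := by
    intro n
    unfold aa
    have : 0 ≤ 1 - κ := by linarith
    positivity
  refine ⟨(1 + 2 * BB κ C0) * (G * Real.exp (-(aa κ 3 * τ₁))), by positivity, ?_⟩
  intro τ θ hτ
  obtain ⟨f1, -, -, f4⟩ := hF τ θ hτ
  have hsmall : ∀ n : ℕ, n < 2 → c n = 0 := by
    intro n hn
    interval_cases n
    · exact hc0
    · exact hc1
  constructor
  · have h1 := hasSum_drop f1 (hG.mul_right (Real.exp (aa κ 3 * (τ - τ₁)))) 2 ?_ (by positivity)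
    · refine h1.trans ?_
      have e1 : Real.exp (aa κ 3 * (τ - τ₁)) =
          Real.exp (-(aa κ 3 * τ₁)) * Real.exp (aa κ 3 * τ) := by
        rw [← Real.exp_add]; congr 1; ring
      rw [e1]
      have : 0 ≤ 2 * BB κ C0 * (G * Real.exp (-(aa κ 3 * τ₁))) * Real.exp (aa κ 3 * τ) := by
        positivity
      nlinarith [this]
    · intro n hn
      rcases lt_or_ge n 2 with h2 | h2
      · have : md c n θ = 0 := by unfold md; rw [hsmall n h2, zero_mul]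
        rw [this, Complex.zero_re, zero_mul, abs_zero]
        positivity
      · have h3 : 3 ≤ n := by omega
        rw [abs_mul, abs_of_pos (Real.exp_pos _)]
        have h4 : |(md c n θ).re| ≤ ‖c n‖ := by
          rw [← norm_md c n θ]; exact Complex.abs_re_le_norm _
        calc |(md c n θ).re| * Real.exp (aa κ n * τ)
            ≤ ‖c n‖ * (Real.exp (aa κ n * τ₁) * Real.exp (aa κ 3 * (τ - τ₁))) :=
              mul_le_mul h4 (ha3 n h3 τ hτ) (Real.exp_pos _).le (norm_nonneg _)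
          _ = 1 * ‖c n‖ * Real.exp (aa κ n * τ₁) * Real.exp (aa κ 3 * (τ - τ₁)) := by ring
          _ ≤ _ := by
            gcongr
            exact hcub n
  · have h1 := hasSum_drop f4 (hG.mul_right
      (2 * BB κ C0 * (Real.exp (aa κ 3 * (τ - τ₁)) * Real.exp (-((1 - κ) * τ))))) 2 ?_
      (by positivity)
    · have e0 : BB κ C0 * (aa κ 2 / ((2 : ℕ) : ℝ)) * (md c 2 θ).im * Real.exp (bb κ 2 * τ) =
          BB κ C0 * (aa κ 2 / 2) * (md c 2 θ).im * Real.exp (bb κ 2 * τ) := by norm_num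
      rw [e0] at h1
      refine h1.trans ?_
      have e1 : Real.exp (aa κ 3 * (τ - τ₁)) * Real.exp (-((1 - κ) * τ)) =
          Real.exp (-(aa κ 3 * τ₁)) * Real.exp (bb κ 3 * τ) := by
        rw [← Real.exp_add, ← Real.exp_add]; congr 1; unfold bb; ring
      rw [e1]
      have : 0 ≤ (G * Real.exp (-(aa κ 3 * τ₁))) * Real.exp (bb κ 3 * τ) := by
        positivity
      nlinarith [this]
    · intro n hn
      rcases lt_or_ge n 2 with h2 | h2
      · have : md c n θ = 0 := by unfold md; rw [hsmall n h2, zero_mul]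
        rw [this, Complex.zero_im, mul_zero, zero_mul, abs_zero]
        positivity
      · have h3 : 3 ≤ n := by omega
        have hn0 : (0 : ℝ) < n := by
          have : (3 : ℝ) ≤ n := by exact_mod_cast h3
          linarith
        have hq : aa κ n / n ≤ 2 := by
          rw [div_le_iff₀ hn0]
          have h4 := hle n
          have : (3 : ℝ) ≤ n := by exact_mod_cast h3
          linarith
        have hq0 : 0 ≤ aa κ n / n := div_nonneg (haa0 n) hn0.le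
        rw [abs_mul, abs_mul, abs_of_nonneg (by positivity : 0 ≤ BB κ C0 * (aa κ n / n)),
          abs_of_pos (Real.exp_pos _)]
        have h4 : |(md c n θ).im| ≤ ‖c n‖ := by
          rw [← norm_md c n θ]; exact Complex.abs_im_le_norm _
        have e2 : Real.exp (bb κ n * τ) = Real.exp (aa κ n * τ) * Real.exp (-((1 - κ) * τ)) := by
          rw [← Real.exp_add]; congr 1; unfold bb; ring
        rw [e2]
        calc BB κ C0 * (aa κ n / n) * |(md c n θ).im| *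
              (Real.exp (aa κ n * τ) * Real.exp (-((1 - κ) * τ)))
            ≤ BB κ C0 * 2 * ‖c n‖ * ((Real.exp (aa κ n * τ₁) * Real.exp (aa κ 3 * (τ - τ₁))) *
                Real.exp (-((1 - κ) * τ))) := by
              gcongr
              exact ha3 n h3 τ hτ
          _ = 1 * ‖c n‖ * Real.exp (aa κ n * τ₁) *
                (2 * BB κ C0 * (Real.exp (aa κ 3 * (τ - τ₁)) * Real.exp (-((1 - κ) * τ)))) := by
              ring
          _ ≤ _ := by
            gcongr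
            exact hcub n

/-! ### Far points -/

theorem exists_exp_small {K δ η : ℝ} (hδ : 0 < δ) (hη : 0 < η) :
    ∃ τ' : ℝ, ∀ τ ≤ τ', K * Real.exp (δ * τ) ≤ η := by
  have h1 : Tendsto (fun τ : ℝ => K * Real.exp (δ * τ)) atBot (𝓝 (K * 0)) := by
    refine Tendsto.const_mul K ?_
    exact Real.tendsto_exp_atBot.comp (tendsto_id.const_mul_atBot hδ)
  rw [mul_zero] at h1
  have h2 := h1.eventually (ge_mem_nhds hη)
  exact eventually_atBot.1 h2

theorem sg_continuousAt {κ α : ℝ} (hα : 0 < α) (cS : ℕ → ℂ) (n : ℕ) :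
    ContinuousAt (fun β => sg κ β cS n) α := by
  unfold sg
  have : ContinuousAt Real.log α := Real.continuousAt_log hα.ne'
  fun_prop

theorem far {κ : ℝ} (hκ : 0 < κ) (hκ1 : κ < 1) (h0 : GExpo) (h2 : GA2) (h11 : GA11d)
    (S : SFull κ) (D : TData κ S.C0) {α : ℝ} (hα : 0 < α) (hα1 : α < 1) (hP : PA S D α) :
    ∃ τ' : ℝ, ∀ᶠ β in 𝓝 α, α ≤ β → ∀ τ θ : ℝ, τ ≤ τ' →
      InS S (shf κ β τ) (D.u (τ, θ) / β) (D.om (τ, θ)) := by
  obtain ⟨cS, τS, hτS, hFS, hreal, hpos⟩ := S.exp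
  obtain ⟨cT, τT, hτT, hFT⟩ := D.exp
  have hlt := h11 κ hκ hκ1 S D α cS cT τS τT hα hα1.le hFS hreal hpos hFT hτT hP
  obtain ⟨K, hK0, hK⟩ := fexp_tail hκ hκ1 h0 S.C0pos hFT
  obtain ⟨m, hm1, hm2⟩ := exists_between hlt
  obtain ⟨m', hm1', hm2'⟩ := exists_between hm2
  have hm0 : 0 ≤ m := (norm_nonneg _).trans hm1.le
  have hm0' : 0 < m' := lt_of_le_of_lt hm0 hm1'
  have hβ0 : m / m' < 1 := (div_lt_one hm0').2 hm1'
  -- avoid the case `m = 0`
  have hmpos : 0 < m := lt_of_le_of_lt (norm_nonneg _) hm1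
  have hβpos : 0 < m / m' := div_pos hmpos hm0'
  obtain ⟨tβ, htβ⟩ := h2 κ hκ hκ1 S cS τS hFS hreal hpos (m / m') hβpos hβ0
  have hmono := aa_mono hκ hκ1 h0
  have hδ : 0 < aa κ 3 - aa κ 2 := sub_pos.2 (hmono (by norm_num))
  have he : 0 < 1 - κ := by linarith
  have ha2 : 0 < aa κ 2 := by
    have h01 := (h0 κ hκ hκ1).2.1
    have : aa κ 1 < aa κ 2 := hmono (by norm_num)
    linarith
  have hk0 : 0 < BB κ S.C0 * (aa κ 2 / 2) := by
    have hB : 0 < BB κ S.C0 := by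
      unfold BB
      have := S.C0pos
      positivity
    positivity
  set k0 := BB κ S.C0 * (aa κ 2 / 2) with hk0def
  obtain ⟨τ1, hτ1⟩ := exists_exp_small (K := K + K / k0) hδ (sub_pos.2 hm1)
  refine ⟨min (min τ1 τT) (tβ + Real.log α / (1 - κ)), ?_⟩
  have hev : ∀ᶠ β in 𝓝 α, m' < sg κ β cS 2 :=
    (sg_continuousAt hα cS 2).eventually (lt_mem_nhds hm2')
  filter_upwards [hev] with β hβ hαβ τ θ hτ
  have hβ0' : 0 < β := lt_of_lt_of_le hα hαβ
  have t1 : τ ≤ τ1 := hτ.trans ((min_le_left _ _).trans (min_le_left _ _))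
  have t2 : τ ≤ τT := hτ.trans ((min_le_left _ _).trans (min_le_right _ _))
  have t3 : τ ≤ tβ + Real.log α / (1 - κ) := hτ.trans (min_le_right _ _)
  obtain ⟨b1, b2⟩ := hK τ θ t2
  -- the complex number `Z`
  set e1 : ℝ := ((D.u (τ, θ) - S.C0 * Real.exp ((1 - κ) * τ)) * Real.exp (-(aa κ 2 * τ))) with he1
  set e2 : ℝ := (D.om (τ, θ) * Real.exp (-(bb κ 2 * τ)) / k0) with he2
  have c1 : |e1 - (md cT 2 θ).re| ≤ K * Real.exp ((aa κ 3 - aa κ 2) * τ) := by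
    have : e1 - (md cT 2 θ).re = ((D.u (τ, θ) - S.C0 * Real.exp ((1 - κ) * τ)) -
        (md cT 2 θ).re * Real.exp (aa κ 2 * τ)) * Real.exp (-(aa κ 2 * τ)) := by
      rw [sub_mul, mul_assoc, ← Real.exp_add, add_neg_cancel, Real.exp_zero, mul_one]
    rw [this, abs_mul, abs_of_pos (Real.exp_pos _)]
    calc _ ≤ K * Real.exp (aa κ 3 * τ) * Real.exp (-(aa κ 2 * τ)) := by gcongr
      _ = _ := by rw [mul_assoc, ← Real.exp_add]; congr 2; ring
  have c2 : |e2 - (md cT 2 θ).im| ≤ K / k0 * Real.exp ((aa κ 3 - aa κ 2) * τ) := by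
    have : e2 - (md cT 2 θ).im = (D.om (τ, θ) -
        k0 * (md cT 2 θ).im * Real.exp (bb κ 2 * τ)) * Real.exp (-(bb κ 2 * τ)) / k0 := by
      rw [sub_mul, mul_assoc (k0 * _), ← Real.exp_add, add_neg_cancel, Real.exp_zero, mul_one,
        sub_div, mul_div_cancel_left₀ _ hk0.ne']
    rw [this, abs_div, abs_mul, abs_of_pos (Real.exp_pos _), abs_of_pos hk0]
    calc _ ≤ K * Real.exp (bb κ 3 * τ) * Real.exp (-(bb κ 2 * τ)) / k0 := by gcongr
      _ = _ := by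
        rw [mul_assoc, ← Real.exp_add, mul_div_right_comm]
        congr 2
        unfold bb
        ring
  have c3 : ‖(⟨e1, e2⟩ : ℂ)‖ ≤ m := by
    have d1 : (⟨e1, e2⟩ : ℂ) = md cT 2 θ + ⟨e1 - (md cT 2 θ).re, e2 - (md cT 2 θ).im⟩ := by
      apply Complex.ext <;> simp
    rw [d1]
    refine (norm_add_le _ _).trans ?_
    rw [norm_md]
    have d2 := Complex.norm_le_abs_re_add_abs_im
      (⟨e1 - (md cT 2 θ).re, e2 - (md cT 2 θ).im⟩ : ℂ)
    have d3 := hτ1 τ t1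
    rw [add_mul] at d3
    simp only at d2
    linarith
  have c4 : e1 ^ 2 + e2 ^ 2 ≤ m ^ 2 := by
    have d1 : e1 ^ 2 + e2 ^ 2 = ‖(⟨e1, e2⟩ : ℂ)‖ ^ 2 := by
      rw [← Complex.normSq_eq_norm_sq, Complex.normSq_mk]; ring
    rw [d1]
    exact pow_le_pow_left₀ (norm_nonneg _) c3 2
  set σ := sg κ β cS 2 with hσ
  have hσ0 : 0 < σ := hm0'.trans hβ
  have c5 : (e1 / σ) ^ 2 + (e2 / σ) ^ 2 ≤ (m / m') ^ 2 := by
    rw [div_pow e1 σ 2, div_pow e2 σ 2, div_pow m m' 2, ← add_div]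
    have : m' ^ 2 ≤ σ ^ 2 := pow_le_pow_left₀ hm0'.le hβ.le 2
    calc (e1 ^ 2 + e2 ^ 2) / σ ^ 2 ≤ m ^ 2 / σ ^ 2 := by gcongr
      _ ≤ m ^ 2 / m' ^ 2 := by gcongr
  have c6 : shf κ β τ ≤ tβ := by
    unfold shf
    have : Real.log α / (1 - κ) ≤ Real.log β / (1 - κ) :=
      div_le_div_of_nonneg_right (Real.log_le_log hα hαβ) he.le
    linarith
  have key := htβ _ c6 _ _ c5
  -- the two identities
  have hexp1 : Real.exp ((1 - κ) * shf κ β τ) = Real.exp ((1 - κ) * τ) / β := by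
    unfold shf
    rw [mul_sub, Real.exp_sub, mul_div_cancel₀ _ he.ne', Real.exp_log hβ0']
  set E := Real.exp (-(aa κ 2 * (Real.log β / (1 - κ)))) with hE
  have hexp2 : Real.exp (aa κ 2 * shf κ β τ) = Real.exp (aa κ 2 * τ) * E := by
    unfold shf
    rw [hE, ← Real.exp_add]; congr 1; ring
  have hexp3 : Real.exp (bb κ 2 * shf κ β τ) = Real.exp (bb κ 2 * τ) * (E * β) := by
    unfold shf bb
    rw [hE]
    conv_rhs => rw [← Real.exp_log hβ0']
    rw [← Real.exp_add, ← Real.exp_add, Real.exp_log hβ0']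
    congr 1
    field_simp
    ring
  have hσE : σ = β * E * (cS 2).re := by rw [hσ, hE]; rfl
  have hE0 : 0 < E := Real.exp_pos _
  have i1 : S.C0 * Real.exp ((1 - κ) * shf κ β τ) +
      (cS 2).re * (e1 / σ) * Real.exp (aa κ 2 * shf κ β τ) = D.u (τ, θ) / β := by
    rw [hexp1, hexp2, hσE]
    have : e1 * Real.exp (aa κ 2 * τ) = D.u (τ, θ) - S.C0 * Real.exp ((1 - κ) * τ) := by
      rw [he1, mul_assoc, ← Real.exp_add, neg_add_cancel, Real.exp_zero, mul_one]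
    have h3 : (cS 2).re * (e1 / (β * E * (cS 2).re)) * (Real.exp (aa κ 2 * τ) * E) =
        (e1 * Real.exp (aa κ 2 * τ)) / β := by
      field_simp
    rw [h3, this]
    ring
  have i2 : BB κ S.C0 * (aa κ 2 / 2) * (cS 2).re * (e2 / σ) * Real.exp (bb κ 2 * shf κ β τ) =
      D.om (τ, θ) := by
    rw [← hk0def, hexp3, hσE]
    have : e2 * k0 * Real.exp (bb κ 2 * τ) = D.om (τ, θ) := by
      rw [he2, div_mul_cancel₀ _ hk0.ne', mul_assoc, ← Real.exp_add, neg_add_cancel,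
        Real.exp_zero, mul_one]
    have h3 : k0 * (cS 2).re * (e2 / (β * E * (cS 2).re)) * (Real.exp (bb κ 2 * τ) * (E * β)) =
        e2 * k0 * Real.exp (bb κ 2 * τ) := by
      field_simp
    rw [h3, this]
  rw [i1, i2] at key
  exact key

/-! ### Near points -/

theorem near_bdry {κ : ℝ} (hκ : 0 < κ) (hκ1 : κ < 1) (h1 : GA1) (S : SFull κ) {t₀ w₀ : ℝ}
    (ht₀ : 0 < t₀) (hw : |w₀| < S.om (t₀, 0)) :
    ∀ᶠ p : ℝ × ℝ × ℝ in 𝓝 (t₀, 1, w₀), p.2.1 < 1 → InS S p.1 p.2.1 p.2.2 := by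
  obtain ⟨m, hm1, hm2⟩ := exists_between hw
  have hmem : ((t₀, 0) : ℝ × ℝ) ∈ {z : ℝ × ℝ | 0 ≤ z.2 ∧ z.2 ≤ π / 2 ∧ z ≠ (0, 0)} := by
    refine ⟨le_rfl, by positivity, ?_⟩
    intro h
    have := congrArg Prod.fst h
    simp only at this
    exact ht₀.ne' this
  have hcont := S.om_cont _ hmem
  have hev := hcont.eventually (lt_mem_nhds hm2)
  rw [eventually_nhdsWithin_iff] at hev
  obtain ⟨δ, hδ0, hδ⟩ := Metric.eventually_nhds_iff.1 hev
  -- choose the small angle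
  set δ' : ℝ := min (δ / 2) (π / 4) with hδ'
  have hδ'0 : 0 < δ' := lt_min (by linarith) (by positivity)
  have hδ'1 : δ' < δ := lt_of_le_of_lt (min_le_left _ _) (by linarith)
  have hδ'2 : δ' < π / 2 := lt_of_le_of_lt (min_le_right _ _) (by linarith [Real.pi_pos])
  have hslit : ∀ t : ℝ, 0 < t → S.u (t, 0) = 1 := by
    intro t ht
    apply S.slit
    intro h
    rcases h with h | h
    · have h' : t < 0 := h
      linarith
    · exact h Real.sin_zero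
  have hu1 : S.u (t₀, δ') < 1 := by
    have := (h1 κ hκ hκ1 S).1 t₀ 0 δ' le_rfl hδ'0 hδ'2.le
    rwa [hslit t₀ ht₀] at this
  have hcu : Continuous S.u := S.cont
  have E1 : ∀ᶠ p : ℝ × ℝ × ℝ in 𝓝 (t₀, 1, w₀), S.u (p.1, δ') < p.2.1 := by
    have hc : ContinuousAt (fun p : ℝ × ℝ × ℝ => p.2.1 - S.u (p.1, δ')) (t₀, 1, w₀) := by
      fun_prop
    have := hc.eventually (lt_mem_nhds (by simp only; linarith :
      (0 : ℝ) < (fun p : ℝ × ℝ × ℝ => p.2.1 - S.u (p.1, δ')) (t₀, 1, w₀)))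
    filter_upwards [this] with p hp
    linarith
  have E2 : ∀ᶠ p : ℝ × ℝ × ℝ in 𝓝 (t₀, 1, w₀), 0 < p.1 :=
    (continuous_fst.continuousAt (x := ((t₀, (1 : ℝ), w₀) : ℝ × ℝ × ℝ))).eventually (lt_mem_nhds ht₀)
  have E3 : ∀ᶠ p : ℝ × ℝ × ℝ in 𝓝 (t₀, 1, w₀), dist p.1 t₀ < δ :=
    (continuous_fst.continuousAt (x := ((t₀, (1 : ℝ), w₀) : ℝ × ℝ × ℝ))).eventually (Metric.ball_mem_nhds t₀ hδ0)
  have E4 : ∀ᶠ p : ℝ × ℝ × ℝ in 𝓝 (t₀, 1, w₀), |p.2.2| < m := by
    have hc : ContinuousAt (fun p : ℝ × ℝ × ℝ => |p.2.2|) (t₀, 1, w₀) := by fun_prop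
    exact hc.eventually (gt_mem_nhds hm1)
  filter_upwards [E1, E2, E3, E4] with p e1 e2 e3 e4 e5
  -- intermediate value
  have hivt : p.2.1 ∈ (fun ϑ => S.u (p.1, ϑ)) '' Icc 0 δ' := by
    have hc : ContinuousOn (fun ϑ => S.u (p.1, ϑ)) (Icc 0 δ') := by fun_prop
    apply intermediate_value_Icc' hδ'0.le hc
    refine ⟨e1.le, ?_⟩
    simp only [hslit p.1 e2]
    exact e5.le
  obtain ⟨ϑ, ⟨h3, h4⟩, h5⟩ := hivt
  simp only at h5
  have h3' : 0 < ϑ := by
    rcases h3.eq_or_lt with h6 | h6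
    · rw [← h6, hslit p.1 e2] at h5
      linarith
    · exact h6
  refine ⟨ϑ, h3', lt_of_le_of_lt h4 hδ'2, h5, ?_⟩
  refine e4.trans ?_
  refine hδ (y := (p.1, ϑ)) ?_ ?_
  · rw [Prod.dist_eq]
    refine max_lt e3 ?_
    simp only [Real.dist_eq, sub_zero]
    rw [abs_of_pos h3']
    linarith
  · refine ⟨h3, by linarith, ?_⟩
    intro h
    have := congrArg Prod.snd h
    simp only at this
    exact h3'.ne' this

theorem PA.weak {κ : ℝ} {S : SFull κ} {D : TData κ S.C0} {α : ℝ} (hP : PA S D α) : PAw S D α := by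
  intro z hz hu
  obtain ⟨ϑ, a1, a2, a3, a4⟩ := hP z hz hu
  exact ⟨ϑ, a1.le, a2.le, a3, a4.le⟩

theorem near {κ : ℝ} (hκ : 0 < κ) (hκ1 : κ < 1) (h1 : GA1) (h8 : GA8) (h9 : GA9)
    (S : SFull κ) (D : TData κ S.C0) {α : ℝ} (hα : 0 < α) (hα1 : α < 1) (hP : PA S D α)
    (z₀ : ℝ × ℝ) :
    ∀ᶠ p : ℝ × (ℝ × ℝ) in 𝓝 (α, z₀), p.2.1 ≤ D.T p.2.2 → D.u p.2 < p.1 →
      InS S (shf κ p.1 p.2.1) (D.u p.2 / p.1) (D.om p.2) := by
  have hT := D.Tcont
  by_cases hz : z₀.1 ≤ D.T z₀.2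
  · have hV : D.V ∈ 𝓝 z₀ := D.Vopen.mem_nhds (D.VT z₀ hz)
    have hcu : ContinuousAt D.u z₀ := (D.sys.1.continuousOn).continuousAt hV
    have hcom : ContinuousAt D.om z₀ := (D.sys.2.1.continuousOn).continuousAt hV
    have hu' : ContinuousAt (fun p : ℝ × (ℝ × ℝ) => D.u p.2) (α, z₀) :=
      ContinuousAt.comp (f := Prod.snd) (x := (α, z₀)) hcu continuousAt_snd
    have hom' : ContinuousAt (fun p : ℝ × (ℝ × ℝ) => D.om p.2) (α, z₀) :=
      ContinuousAt.comp (f := Prod.snd) (x := (α, z₀)) hcom continuousAt_snd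
    have hlog : ContinuousAt (fun p : ℝ × (ℝ × ℝ) => Real.log p.1) (α, z₀) :=
      ContinuousAt.log continuousAt_fst hα.ne'
    have hmap : ContinuousAt (fun p : ℝ × (ℝ × ℝ) =>
        ((shf κ p.1 p.2.1, D.u p.2 / p.1, D.om p.2) : ℝ × ℝ × ℝ)) (α, z₀) := by
      refine ContinuousAt.prodMk ?_ (ContinuousAt.prodMk ?_ hom')
      · unfold shf
        exact (by fun_prop : ContinuousAt (fun p : ℝ × (ℝ × ℝ) => p.2.1) (α, z₀)).sub
          (hlog.div_const _)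
      · exact hu'.div continuousAt_fst hα.ne'
    rcases lt_trichotomy (D.u z₀) α with hlt | heq | hgt
    · have hin := hP z₀ hz hlt
      have := hmap.eventually ((h1 κ hκ hκ1 S).2 _ _ _ hin)
      filter_upwards [this] with p hp _ _
      exact hp
    · obtain ⟨ht, -⟩ := h8 κ hκ hκ1 S D α hα hα1.le (PA.weak hP) z₀ hz heq
      have hw := h9 κ hκ hκ1 S D α hα hα1.le (PA.weak hP) z₀ hz heq
      have hb := near_bdry hκ hκ1 h1 S ht hw
      have e : ((shf κ α z₀.1, D.u z₀ / α, D.om z₀) : ℝ × ℝ × ℝ) =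
          (shf κ α z₀.1, 1, D.om z₀) := by
        rw [heq, div_self hα.ne']
      rw [← e] at hb
      have h3 := hmap.eventually hb
      have hpos : ∀ᶠ p : ℝ × (ℝ × ℝ) in 𝓝 (α, z₀), 0 < p.1 :=
        (continuous_fst.continuousAt (x := ((α, z₀) : ℝ × (ℝ × ℝ)))).eventually (lt_mem_nhds hα)
      filter_upwards [h3, hpos] with p hp hp0 _ hlt
      exact hp ((div_lt_one hp0).2 hlt)
    · have hc : ContinuousAt (fun p : ℝ × (ℝ × ℝ) => D.u p.2 - p.1) (α, z₀) :=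
        hu'.sub continuousAt_fst
      have h3 := hc.eventually (lt_mem_nhds (by simp only; linarith :
        (0 : ℝ) < (fun p : ℝ × (ℝ × ℝ) => D.u p.2 - p.1) (α, z₀)))
      filter_upwards [h3] with p hp _ hlt
      exfalso
      linarith
  · push Not at hz
    have hc : ContinuousAt (fun p : ℝ × (ℝ × ℝ) => p.2.1 - D.T p.2.2) (α, z₀) := by fun_prop
    have h3 := hc.eventually (lt_mem_nhds (by simp only; linarith :
      (0 : ℝ) < (fun p : ℝ × (ℝ × ℝ) => p.2.1 - D.T p.2.2) (α, z₀)))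
    filter_upwards [h3] with p hp hle
    exfalso
    linarith

/-- PACKET A12. -/
theorem pkA12 (h0 : GExpo) (h1 : GA1) (h2 : GA2) (h8 : GA8) (h9 : GA9) (h11 : GA11d) : GA12 := by
  intro κ hκ hκ1 S D α hα hα1 hP
  obtain ⟨τ', hfar⟩ := far hκ hκ1 h0 h2 h11 S D hα hα1 hP
  obtain ⟨M, hM⟩ := (isCompact_Icc (a := (0 : ℝ)) (b := 2 * π)).bddAbove_image
    D.Tcont.continuousOn
  have hK : IsCompact (Icc τ' M ×ˢ Icc (0 : ℝ) (2 * π)) := isCompact_Icc.prod isCompact_Icc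
  have hnear := hK.eventually_forall_of_forall_eventually (x₀ := α)
    (P := fun β z => z.1 ≤ D.T z.2 → D.u z < β → InS S (shf κ β z.1) (D.u z / β) (D.om z))
    (fun z _ => near hκ hκ1 h1 h8 h9 S D hα hα1 hP z)
  obtain ⟨ε, hε0, hε⟩ := Metric.eventually_nhds_iff.1 (hfar.and hnear)
  refine ⟨α + ε / 2, by linarith, fun β h3 h4 _ => ?_⟩
  obtain ⟨g1, g2⟩ := hε (y := β) (by rw [Real.dist_eq, abs_of_nonneg (by linarith)]; linarith)
  intro z hz hu
  obtain ⟨τ, θ⟩ := z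
  simp only at hz ⊢
  -- reduce to one period
  have hper : Function.Periodic (fun θ => (D.T θ, D.u (τ, θ), D.om (τ, θ))) (2 * π) := by
    intro θ
    simp only [D.Tper, D.uper, D.omper]
  obtain ⟨θ', hθ', he⟩ := hper.exists_mem_Ico₀ (by positivity) θ
  simp only [Prod.mk.injEq] at he
  obtain ⟨p1, p2, p3⟩ := he
  rw [p2, p3]
  rw [p1] at hz
  rw [p2] at hu
  rcases le_or_gt τ τ' with hτ | hτ
  · exact g1 h3 τ θ' hτ
  · refine g2 (τ, θ') ⟨⟨hτ.le, hz.trans (hM ⟨θ', ⟨hθ'.1, hθ'.2.le⟩, rfl⟩)⟩,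
      ⟨hθ'.1, hθ'.2.le⟩⟩ hz hu

end Pool.Agent.Helper50.PCap
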