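import Pool.Agent.Helper25.PCap.GoalsB
import Pool.Agent.Helper25.PCap.GoalsF

/-!
# Integral formula for the mean width (MP_576c25_an, packet B8)
-/

set_option autoImplicit false

open MeasureTheory Set Filter Topology
open scoped ContDiff Real

noncomputable section

namespace Pool.Agent.Helper50.PCap

open Pool.Agent.Helper25.PCap

theorem hasDerivAt_D1 {f : ℝ × ℝ → ℝ} {τ θ : ℝ} (hf : DifferentiableAt ℝ f (τ, θ)) :
    HasDerivAt (fun τ => f (τ, θ)) (D1 f (τ, θ)) τ := by
  have h1 : HasDerivAt (fun τ : ℝ => ((τ, θ) : ℝ × ℝ)) (1, 0) τ :=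
    (hasDerivAt_id τ).prodMk (hasDerivAt_const τ θ)
  exact hf.hasFDerivAt.comp_hasDerivAt τ h1

/-- The potential of the segment is at most one. -/
theorem S_le_one {κ : ℝ} (S : SData κ) (z : ℝ × ℝ) : S.u z ≤ 1 := by
  by_cases h : z ∈ SC
  · exact (S.lt1 z h).le
  · exact (S.slit z h).le

/-- The extension of the potential is measurable. -/
theorem ext_measurable {κ C0 : ℝ} (D : TData κ C0) : Measurable D.ext := by
  classical
  have hT := D.Tcont
  have hs : IsOpen {z : ℝ × ℝ | z.1 < D.T z.2} :=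
    isOpen_lt continuous_fst (hT.comp continuous_snd)
  have h1 : ContinuousOn D.u {z : ℝ × ℝ | z.1 < D.T z.2} :=
    D.sys.1.continuousOn.mono fun z hz => D.VT z (le_of_lt hz)
  have h2 := ContinuousOn.measurable_piecewise (f := D.u) (g := fun _ => (1 : ℝ))
    (s := {z : ℝ × ℝ | z.1 < D.T z.2}) h1 continuousOn_const hs.measurableSet
  have e : D.ext = Set.piecewise {z : ℝ × ℝ | z.1 < D.T z.2} D.u (fun _ => (1 : ℝ)) := by
    funext z
    unfold TData.ext
    by_cases hz : z.1 < D.T z.2
    · rw [if_pos hz]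
      exact (Set.piecewise_eq_of_mem {z : ℝ × ℝ | z.1 < D.T z.2} D.u (fun _ => (1 : ℝ)) hz).symm
    · rw [if_neg hz]
      exact (Set.piecewise_eq_of_notMem {z : ℝ × ℝ | z.1 < D.T z.2} D.u (fun _ => (1 : ℝ)) hz).symm
  rw [e]
  exact h2

/-- PACKET B8. -/
theorem pkB8 (hc : GCU0) (h1 : GCU1) : GB8 := by
  intro κ hκ hκ1 S C D hC0 hT hu hstar
  obtain ⟨-, -, -, -, -, -, -, c8, -⟩ := hc κ hκ hκ1 C
  obtain ⟨p1, p2, -⟩ := h1 κ hκ hκ1 C
  have hTper : Function.Periodic C.T (2 * π) := C.Tper
  have hcomp := hTper.compact_of_continuous (by positivity) C.Tcont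
  obtain ⟨m, hm⟩ := hcomp.bddBelow
  obtain ⟨M, hM⟩ := hcomp.bddAbove
  have hm' : ∀ θ, m ≤ C.T θ := fun θ => hm ⟨θ, rfl⟩
  have hM' : ∀ θ, C.T θ ≤ M := fun θ => hM ⟨θ, rfl⟩
  set a : ℝ := min m 0 with ha
  set b : ℝ := max M 0 with hb
  have ha0 : a ≤ 0 := min_le_right _ _
  have hb0 : 0 ≤ b := le_max_right _ _
  have haT : ∀ θ, a ≤ C.T θ := fun θ => (min_le_left _ _).trans (hm' θ)
  have hbT : ∀ θ, C.T θ ≤ b := fun θ => (hM' θ).trans (le_max_left _ _)
  have hab : a ≤ b := ha0.trans hb0
  have hpi : (0 : ℝ) ≤ 2 * π := by positivity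
  -- bounds of the extension
  have hext0 : ∀ z, 0 ≤ 1 - D.ext z ∧ 1 - D.ext z ≤ 1 := by
    intro z
    unfold TData.ext
    by_cases hz : z.1 < D.T z.2
    · rw [if_pos hz, hu]
      rw [hT] at hz
      have q1 := p1 z hz.le
      have q2 := p2 z hz
      constructor <;> linarith
    · rw [if_neg hz]
      norm_num
  have hmeas : Measurable (fun z : ℝ × ℝ => Real.exp (-z.1) * (1 - D.ext z)) :=
    (by fun_prop : Measurable fun z : ℝ × ℝ => Real.exp (-z.1)).mul
      (measurable_const.sub (ext_measurable D))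
  -- the formula for the support function
  have hH : ∀ θ, C.H θ = Real.exp (-a) * C.W (a, θ) +
      ∫ τ in a..b, Real.exp (-τ) * (1 - D.ext (τ, θ)) := by
    intro θ
    have hsec : Measurable (fun τ : ℝ => Real.exp (-τ) * (1 - D.ext (τ, θ))) :=
      hmeas.comp (measurable_id.prodMk measurable_const)
    have hii : ∀ c d : ℝ, IntervalIntegrable
        (fun τ : ℝ => Real.exp (-τ) * (1 - D.ext (τ, θ))) volume c d := by
      intro c d
      refine IntervalIntegrable.mono_fun' (g := fun τ => Real.exp (-τ))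
        ((by fun_prop : Continuous fun τ : ℝ => Real.exp (-τ)).intervalIntegrable c d)
        hsec.aestronglyMeasurable ?_
      refine Eventually.of_forall fun τ => ?_
      simp only
      rw [Real.norm_eq_abs, abs_mul, abs_of_pos (Real.exp_pos _), abs_of_nonneg (hext0 _).1]
      exact mul_le_of_le_one_right (Real.exp_pos _).le (hext0 _).2
    rw [← intervalIntegral.integral_add_adjacent_intervals (hii a (C.T θ)) (hii (C.T θ) b)]
    have e2 : ∫ τ in (C.T θ)..b, Real.exp (-τ) * (1 - D.ext (τ, θ)) = 0 := by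
      rw [intervalIntegral.integral_of_le (hbT θ)]
      rw [setIntegral_congr_fun (g := fun _ => (0 : ℝ)) measurableSet_Ioc]
      · simp
      · intro τ hτ
        have : ¬ (τ < D.T θ) := by rw [hT]; exact not_lt.2 hτ.1.le
        simp only [TData.ext, if_neg this, sub_self, mul_zero]
    have e1 : ∫ τ in a..(C.T θ), Real.exp (-τ) * (1 - D.ext (τ, θ)) =
        Real.exp (-(C.T θ)) * C.W (C.T θ, θ) - Real.exp (-a) * C.W (a, θ) := by
      have hV : ∀ τ, τ ≤ C.T θ → (τ, θ) ∈ C.V := fun τ hτ => C.VT (τ, θ) hτ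
      have hext : ∀ τ ∈ uIcc a (C.T θ), Real.exp (-τ) * (1 - D.ext (τ, θ)) =
          Real.exp (-τ) * (D1 C.W (τ, θ) - C.W (τ, θ)) := by
        intro τ hτ
        rw [uIcc_of_le (haT θ)] at hτ
        have hu' : D.ext (τ, θ) = C.u (τ, θ) := by
          unfold TData.ext
          rcases hτ.2.lt_or_eq with h3 | h3
          · rw [if_pos (by rw [hT]; exact h3), hu]
          · rw [if_neg (by rw [hT]; exact not_lt.2 h3.ge), h3, c8]
        rw [hu']
        unfold Config.u
        ring
      rw [intervalIntegral.integral_congr hext]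
      refine intervalIntegral.integral_eq_sub_of_hasDerivAt
        (f := fun τ => Real.exp (-τ) * C.W (τ, θ)) ?_ ?_
      · intro τ hτ
        rw [uIcc_of_le (haT θ)] at hτ
        have hd : DifferentiableAt ℝ C.W (τ, θ) :=
          (C.smooth.contDiffAt (C.Vopen.mem_nhds (hV τ hτ.2))).differentiableAt (by norm_num)
        have h3 := hasDerivAt_D1 hd
        have h4 : HasDerivAt (fun τ : ℝ => Real.exp (-τ)) (-Real.exp (-τ)) τ := by
          have := (hasDerivAt_neg τ).exp
          simpa using this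
        refine (h4.mul h3).congr_deriv ?_
        ring
      · have hsec' : IntervalIntegrable (fun τ : ℝ => Real.exp (-τ) * (1 - D.ext (τ, θ)))
            volume a (C.T θ) := hii a (C.T θ)
        refine hsec'.congr ?_
        intro τ hτ
        exact hext τ (uIoc_subset_uIcc hτ)
    rw [e1, e2]
    unfold Config.H
    ring
  -- integrability on the rectangle
  have hint : Integrable (fun z : ℝ × ℝ => Real.exp (-z.1) * (1 - D.ext z))
      ((volume.restrict (Ioc a b)).prod (volume.restrict (Ioc 0 (2 * π)))) := by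
    refine Integrable.mono' (g := fun _ => Real.exp (-a)) (integrable_const _)
      hmeas.aestronglyMeasurable ?_
    rw [Measure.prod_restrict]
    refine (ae_restrict_iff' (measurableSet_Ioc.prod measurableSet_Ioc)).2
      (Eventually.of_forall fun z hz => ?_)
    rw [Real.norm_eq_abs, abs_mul, abs_of_pos (Real.exp_pos _), abs_of_nonneg (hext0 _).1]
    calc Real.exp (-z.1) * (1 - D.ext z) ≤ Real.exp (-z.1) * 1 :=
          mul_le_mul_of_nonneg_left (hext0 _).2 (Real.exp_pos _).le
      _ ≤ Real.exp (-a) := by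
          rw [mul_one]
          exact Real.exp_le_exp.2 (by linarith [hz.1.1])
  have hswap := integral_integral_swap (f := fun τ θ => Real.exp (-τ) * (1 - D.ext (τ, θ))) hint
  -- the integral over the circle
  have hW : IntervalIntegrable (fun θ => Real.exp (-a) * C.W (a, θ)) volume 0 (2 * π) := by
    have : Continuous fun θ => C.W (a, θ) := by
      rw [continuous_iff_continuousAt]
      intro θ
      have h3 : ContinuousAt C.W (a, θ) :=
        (C.smooth.continuousOn).continuousAt (C.Vopen.mem_nhds (C.VT (a, θ) (haT θ)))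
      exact ContinuousAt.comp (f := fun θ : ℝ => ((a, θ) : ℝ × ℝ)) (x := θ) h3 (by fun_prop)
    exact (continuous_const.mul this).intervalIntegrable _ _
  have hG : IntervalIntegrable (fun θ => ∫ τ in a..b, Real.exp (-τ) * (1 - D.ext (τ, θ)))
      volume 0 (2 * π) := by
    rw [intervalIntegrable_iff_integrableOn_Ioc_of_le hpi]
    have := hint.integral_prod_right
    simp only [intervalIntegral.integral_of_le hab]
    exact this
  have hsum : ∫ θ in (0 : ℝ)..(2 * π), C.H θ =
      Real.exp (-a) * (2 * π * (-1 + C.C0 / κ * Real.exp ((1 - κ) * a))) +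
        ∫ τ in a..b, Real.exp (-τ) * ∫ θ in (0 : ℝ)..(2 * π), (1 - D.ext (τ, θ)) := by
    simp only [hH]
    rw [intervalIntegral.integral_add hW hG, intervalIntegral.integral_const_mul,
      C.mean a haT]
    congr 1
    rw [intervalIntegral.integral_of_le hpi]
    simp only [intervalIntegral.integral_of_le hab, intervalIntegral.integral_of_le hpi]
    rw [← hswap]
    refine integral_congr_ae (Eventually.of_forall fun τ => ?_)
    simp only
    rw [integral_const_mul]
  -- the comparison
  set Φ : ℝ → ℝ := fun τ => ∫ θ in (0 : ℝ)..(2 * π), (1 - S.u (τ, θ)) with hΦ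
  have hcu : Continuous S.u := S.cont
  have hΦc : Continuous Φ := by
    refine intervalIntegral.continuous_parametric_intervalIntegral_of_continuous' ?_ 0 (2 * π)
    simp only [Function.uncurry_def]
    fun_prop
  have hΦ0 : ∀ τ, 0 ≤ Φ τ := fun τ =>
    intervalIntegral.integral_nonneg hpi fun θ _ => sub_nonneg.2 (S_le_one S.toSData _)
  have hΦ1 : ∀ τ, Φ τ ≤ 2 * π := by
    intro τ
    have h3 : Φ τ ≤ ∫ θ in (0 : ℝ)..(2 * π), (1 : ℝ) := by
      refine intervalIntegral.integral_mono_on hpi ?_ (by simp) ?_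
      · exact (by fun_prop : Continuous fun θ => 1 - S.u (τ, θ)).intervalIntegrable _ _
      · intro θ _
        have := S.pos (τ, θ)
        linarith
    simpa using h3
  have hEΦ : Continuous fun τ => Real.exp (-τ) * Φ τ := by fun_prop
  have hIi : IntegrableOn (fun τ => Real.exp (-τ) * Φ τ) (Ioi 0) := by
    refine Integrable.mono' (g := fun τ => Real.exp (-τ) * (2 * π)) ?_
      hEΦ.aestronglyMeasurable ?_
    · have := exp_neg_integrableOn_Ioi 0 one_pos
      simp only [neg_mul, one_mul] at this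
      exact this.mul_const _
    · refine Eventually.of_forall fun τ => ?_
      rw [Real.norm_eq_abs, abs_mul, abs_of_pos (Real.exp_pos _), abs_of_nonneg (hΦ0 τ)]
      exact mul_le_mul_of_nonneg_left (hΦ1 τ) (Real.exp_pos _).le
  have hle : ∫ τ in a..b, Real.exp (-τ) * ∫ θ in (0 : ℝ)..(2 * π), (1 - D.ext (τ, θ)) ≤
      ∫ τ in a..b, Real.exp (-τ) * Φ τ := by
    refine intervalIntegral.integral_mono_on hab ?_ (hEΦ.intervalIntegrable _ _) ?_
    · rw [intervalIntegrable_iff_integrableOn_Ioc_of_le hab]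
      have := hint.integral_prod_left
      refine this.congr (Eventually.of_forall fun τ => ?_)
      simp only
      rw [integral_const_mul, intervalIntegral.integral_of_le hpi]
    · intro τ _
      exact mul_le_mul_of_nonneg_left (hstar τ) (Real.exp_pos _).le
  have hsplit : ∫ τ in a..b, Real.exp (-τ) * Φ τ =
      (∫ τ in a..0, Real.exp (-τ) * Φ τ) + ∫ τ in (0 : ℝ)..b, Real.exp (-τ) * Φ τ :=
    (intervalIntegral.integral_add_adjacent_intervals (hEΦ.intervalIntegrable _ _)
      (hEΦ.intervalIntegrable _ _)).symm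
  have hright : ∫ τ in (0 : ℝ)..b, Real.exp (-τ) * Φ τ ≤
      ∫ τ in Ioi (0 : ℝ), Real.exp (-τ) * Φ τ := by
    rw [intervalIntegral.integral_of_le hb0]
    refine setIntegral_mono_set hIi ?_ ?_
    · exact Eventually.of_forall fun τ => mul_nonneg (Real.exp_pos _).le (hΦ0 τ)
    · exact Eventually.of_forall fun τ hτ => hτ.1
  have hleft : ∫ τ in a..0, Real.exp (-τ) * Φ τ =
      2 * π * (Real.exp (-a) - 1) - 2 * π * S.C0 / κ * (Real.exp (-(κ * a)) - 1) := by
    have hcongr : ∀ τ ∈ uIcc a 0, Real.exp (-τ) * Φ τ =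
        2 * π * Real.exp (-τ) - 2 * π * S.C0 * Real.exp (-(κ * τ)) := by
      intro τ hτ
      rw [uIcc_of_le ha0] at hτ
      have h3 : Φ τ = 2 * π - 2 * π * S.C0 * Real.exp ((1 - κ) * τ) := by
        simp only [hΦ]
        rw [intervalIntegral.integral_sub (by simp)
          ((by fun_prop : Continuous fun θ => S.u (τ, θ)).intervalIntegrable _ _),
          S.mean τ hτ.2]
        simp
      rw [h3, mul_sub]
      have h4 : Real.exp (-τ) * Real.exp ((1 - κ) * τ) = Real.exp (-(κ * τ)) := by
        rw [← Real.exp_add]; congr 1; ring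
      rw [← h4]
      ring
    rw [intervalIntegral.integral_congr hcongr]
    have hprim : ∀ τ ∈ uIcc a 0, HasDerivAt
        (fun τ => 2 * π * S.C0 / κ * Real.exp (-(κ * τ)) - 2 * π * Real.exp (-τ))
        (2 * π * Real.exp (-τ) - 2 * π * S.C0 * Real.exp (-(κ * τ))) τ := by
      intro τ _
      have h4 : HasDerivAt (fun τ : ℝ => Real.exp (-τ)) (-Real.exp (-τ)) τ := by
        have := (hasDerivAt_neg τ).exp
        simpa using this
      have h5 : HasDerivAt (fun τ : ℝ => Real.exp (-(κ * τ))) (Real.exp (-(κ * τ)) * -κ) τ := by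
        have := ((hasDerivAt_id τ).const_mul κ).neg.exp
        simpa using this
      refine ((h5.const_mul (2 * π * S.C0 / κ)).sub (h4.const_mul (2 * π))).congr_deriv ?_
      field_simp
      ring
    rw [intervalIntegral.integral_eq_sub_of_hasDerivAt hprim
      ((by fun_prop : Continuous fun τ : ℝ =>
        2 * π * Real.exp (-τ) - 2 * π * S.C0 * Real.exp (-(κ * τ))).intervalIntegrable _ _)]
    simp only [mul_zero, neg_zero, Real.exp_zero]
    ring
  have hPer : S.Per = 2 * π * (-1 + S.C0 / κ) + ∫ τ in Ioi (0 : ℝ), Real.exp (-τ) * Φ τ := rfl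
  have hexp : Real.exp (-a) * Real.exp ((1 - κ) * a) = Real.exp (-(κ * a)) := by
    rw [← Real.exp_add]; congr 1; ring
  rw [hsum, hPer, hC0]
  have hfinal : Real.exp (-a) * (2 * π * (-1 + S.C0 / κ * Real.exp ((1 - κ) * a))) =
      -(2 * π * Real.exp (-a)) + 2 * π * S.C0 / κ * Real.exp (-(κ * a)) := by
    rw [← hexp]; ring
  rw [hfinal]
  have hdist : 2 * π * (-1 + S.C0 / κ) = -(2 * π) + 2 * π * S.C0 / κ := by ring
  rw [hdist]
  linarith [hle, hsplit, hright, hleft]

end Pool.Agent.Helper50.PCap
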