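import Pool.Agent.Helper25.PCap.GoalsTools

/-!
# The resolvent of a `C¹` function is `C²` and solves the equation (MP_576c25_an, packet RQB)
-/

set_option autoImplicit false

open MeasureTheory Set Filter Topology ProbabilityTheory
open scoped ContDiff Real

noncomputable section

namespace Pool.Agent.Helper50.PCap

open Pool.Agent.Helper25.PCap

/-- The Gaussian measure of the plane. -/
abbrev GG : Measure (ℝ × ℝ) := (gaussianReal 0 1).prod (gaussianReal 0 1)

/-- The point at which the function is evaluated. -/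
def Ph (κ : ℝ) (x : ℝ × ℝ) (t : ℝ) (y : ℝ × ℝ) : ℝ × ℝ :=
  (x.1 - (1 - κ) * t + Real.sqrt (2 * t) * y.1, x.2 + Real.sqrt (2 * κ * t) * y.2)

theorem Pt_eq (κ t : ℝ) (g : ℝ × ℝ → ℝ) (x : ℝ × ℝ) : Pt κ t g x = ∫ y, g (Ph κ x t y) ∂GG := rfl

theorem cont_Ph (κ : ℝ) (x : ℝ × ℝ) : Continuous (fun p : ℝ × (ℝ × ℝ) => Ph κ x p.1 p.2) := by
  unfold Ph
  fun_prop

theorem cont_Ph_y (κ : ℝ) (x : ℝ × ℝ) (t : ℝ) : Continuous (Ph κ x t) := by
  unfold Ph
  fun_prop

theorem cont_Ph_t (κ : ℝ) (x : ℝ × ℝ) (y : ℝ × ℝ) : Continuous (fun t => Ph κ x t y) := by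
  unfold Ph
  fun_prop

theorem Ph_add (κ : ℝ) (x e : ℝ × ℝ) (t : ℝ) (y : ℝ × ℝ) : Ph κ (x + e) t y = Ph κ x t y + e := by
  unfold Ph
  ext
  · simp only [Prod.fst_add]; ring
  · simp only [Prod.snd_add]; ring

theorem Ph_zero (κ : ℝ) (x y : ℝ × ℝ) : Ph κ x 0 y = x := by
  unfold Ph
  ext <;> simp

variable {κ : ℝ} {h : ℝ × ℝ → ℝ} {A : ℝ}

theorem int_Ph (hc : Continuous h) (hA : ∀ z, |h z| ≤ A) (x : ℝ × ℝ) (t : ℝ) :
    Integrable (fun y => h (Ph κ x t y)) GG :=
  Integrable.of_bound ((hc.comp (cont_Ph_y κ x t)).aestronglyMeasurable) A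
    (Eventually.of_forall fun _ => hA _)

theorem Pt_bound (hA : ∀ z, |h z| ≤ A) (x : ℝ × ℝ) (t : ℝ) :
    |Pt κ t h x| ≤ A := by
  rw [Pt_eq]
  have := norm_integral_le_of_norm_le_const (μ := GG) (f := fun y => h (Ph κ x t y)) (C := A)
    (Eventually.of_forall fun y => hA _)
  simpa using this

theorem Pt_cont (hc : Continuous h) (hA : ∀ z, |h z| ≤ A) (x : ℝ × ℝ) :
    Continuous (fun t => Pt κ t h x) := by
  simp only [Pt_eq]
  refine continuous_of_dominated (bound := fun _ => A) ?_ ?_ (integrable_const _) ?_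
  · intro t
    exact (hc.comp (cont_Ph_y κ x t)).aestronglyMeasurable
  · intro t
    exact Eventually.of_forall fun y => hA _
  · exact Eventually.of_forall fun y => hc.comp (cont_Ph_t κ x y)

theorem exp_int {q : ℝ} (hq : 0 < q) : IntegrableOn (fun t : ℝ => Real.exp (-(q * t))) (Ioi 0) := by
  have := exp_neg_integrableOn_Ioi 0 hq
  simpa only [neg_mul] using this

theorem exp_mul_int {q : ℝ} (hq : 0 < q) {f : ℝ → ℝ} (hf : Continuous f) (hA : ∀ t, |f t| ≤ A) :
    IntegrableOn (fun t : ℝ => Real.exp (-(q * t)) * f t) (Ioi 0) := by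
  refine Integrable.mono' (g := fun t => Real.exp (-(q * t)) * A) ((exp_int hq).mul_const A) ?_ ?_
  · exact (by fun_prop : Continuous fun t : ℝ => Real.exp (-(q * t)) * f t).aestronglyMeasurable
  · refine Eventually.of_forall fun t => ?_
    rw [Real.norm_eq_abs, abs_mul, abs_of_pos (Real.exp_pos _)]
    exact mul_le_mul_of_nonneg_left (hA t) (Real.exp_pos _).le

/-! ### The derivative in space -/

theorem Pt_deriv {g : ℝ × ℝ → ℝ} (hg : ContDiff ℝ 1 g) (hA : ∀ z, |g z| ≤ A)
    (hB : ∀ z, ‖fderiv ℝ g z‖ ≤ A) (x e : ℝ × ℝ) (t s : ℝ) :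
    HasDerivAt (fun s => Pt κ t g (x + s • e)) (Pt κ t (fun z => fderiv ℝ g z e) (x + s • e)) s := by
  have hc : Continuous g := hg.continuous
  have hd : Continuous (fun z => fderiv ℝ g z e) :=
    (hg.continuous_fderiv (by norm_num)).clm_apply continuous_const
  simp only [Pt_eq, Ph_add]
  refine (hasDerivAt_integral_of_dominated_loc_of_deriv_le (μ := GG) (s := univ) (x₀ := s)
    (F := fun (s : ℝ) (y : ℝ × ℝ) => g (Ph κ x t y + s • e))
    (F' := fun (s : ℝ) (y : ℝ × ℝ) => fderiv ℝ g (Ph κ x t y + s • e) e)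
    (bound := fun _ => A * ‖e‖) univ_mem ?_ ?_ ?_ ?_ (integrable_const _) ?_).2
  · refine Eventually.of_forall fun s => ?_
    exact (hc.comp ((cont_Ph_y κ x t).add continuous_const)).aestronglyMeasurable
  · refine Integrable.of_bound
      (hc.comp ((cont_Ph_y κ x t).add continuous_const)).aestronglyMeasurable A
      (Eventually.of_forall fun y => hA _)
  · exact (hd.comp ((cont_Ph_y κ x t).add continuous_const)).aestronglyMeasurable
  · refine Eventually.of_forall fun y s _ => ?_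
    exact ((fderiv ℝ g _).le_opNorm e).trans (mul_le_mul_of_nonneg_right (hB _) (norm_nonneg _))
  · refine Eventually.of_forall fun y s _ => ?_
    have h1 : HasDerivAt (fun s : ℝ => Ph κ x t y + s • e) e s := by
      have := ((hasDerivAt_id s).smul_const e).const_add (Ph κ x t y)
      simpa using this
    exact ((hg.differentiable (by norm_num) _).hasFDerivAt).comp_hasDerivAt s h1

theorem Rq_deriv {q : ℝ} (hq : 0 < q) {g : ℝ × ℝ → ℝ} (hg : ContDiff ℝ 1 g) (hA : ∀ z, |g z| ≤ A)
    (hB : ∀ z, ‖fderiv ℝ g z‖ ≤ A) (x e : ℝ × ℝ) :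
    HasDerivAt (fun s : ℝ => Rq κ q g (x + s • e)) (Rq κ q (fun z => fderiv ℝ g z e) x) 0 := by
  have hc : Continuous g := hg.continuous
  have hd : Continuous (fun z => fderiv ℝ g z e) :=
    (hg.continuous_fderiv (by norm_num)).clm_apply continuous_const
  have hdB : ∀ z, |fderiv ℝ g z e| ≤ A * ‖e‖ := fun z =>
    ((fderiv ℝ g z).le_opNorm e).trans (mul_le_mul_of_nonneg_right (hB _) (norm_nonneg _))
  have e1 : Rq κ q (fun z => fderiv ℝ g z e) x =
      ∫ t in Ioi (0 : ℝ), Real.exp (-(q * t)) * Pt κ t (fun z => fderiv ℝ g z e) (x + (0 : ℝ) • e) := by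
    rw [zero_smul, add_zero]; rfl
  rw [e1]
  unfold Rq
  refine (hasDerivAt_integral_of_dominated_loc_of_deriv_le (s := univ)
    (F' := fun s t => Real.exp (-(q * t)) * Pt κ t (fun z => fderiv ℝ g z e) (x + s • e))
    (bound := fun t => Real.exp (-(q * t)) * (A * ‖e‖))
    univ_mem ?_ ?_ ?_ ?_ ((exp_int hq).mul_const _) ?_).2
  · refine Eventually.of_forall fun s => ?_
    have := Pt_cont (κ := κ) hc hA (x + s • e)
    exact (by fun_prop : Continuous fun t : ℝ =>
      Real.exp (-(q * t)) * Pt κ t g (x + s • e)).aestronglyMeasurable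
  · exact exp_mul_int hq (Pt_cont hc hA _) (fun t => Pt_bound hA _ t)
  · have := Pt_cont (κ := κ) hd hdB (x + (0 : ℝ) • e)
    exact (by fun_prop : Continuous fun t : ℝ => Real.exp (-(q * t)) *
      Pt κ t (fun z => fderiv ℝ g z e) (x + (0 : ℝ) • e)).aestronglyMeasurable
  · refine Eventually.of_forall fun t s _ => ?_
    rw [Real.norm_eq_abs, abs_mul, abs_of_pos (Real.exp_pos _)]
    exact mul_le_mul_of_nonneg_left (Pt_bound hdB _ t) (Real.exp_pos _).le
  · refine Eventually.of_forall fun t s _ => ?_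
    exact (Pt_deriv hg hA hB x e t s).const_mul _

theorem fderiv_Rq {q : ℝ} (hq : 0 < q) {g : ℝ × ℝ → ℝ} (hg : ContDiff ℝ 1 g) (hA : ∀ z, |g z| ≤ A)
    (hB : ∀ z, ‖fderiv ℝ g z‖ ≤ A) (hR : ContDiff ℝ 1 (Rq κ q g)) (x e : ℝ × ℝ) :
    fderiv ℝ (Rq κ q g) x e = Rq κ q (fun z => fderiv ℝ g z e) x := by
  have h1 := Rq_deriv (κ := κ) hq hg hA hB x e
  have h2 : HasDerivAt (fun s : ℝ => Rq κ q g (x + s • e)) (fderiv ℝ (Rq κ q g) x e) 0 := by
    have h3 : HasDerivAt (fun s : ℝ => x + s • e) e 0 := by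
      have := ((hasDerivAt_id (0 : ℝ)).smul_const e).const_add x
      simpa using this
    have h4 : HasFDerivAt (Rq κ q g) (fderiv ℝ (Rq κ q g) x) (x + (0 : ℝ) • e) := by
      rw [zero_smul, add_zero]
      exact (hR.differentiable (by norm_num) x).hasFDerivAt
    exact h4.comp_hasDerivAt (0 : ℝ) h3
  exact h2.unique h1

theorem fderiv_eq (f : ℝ × ℝ → ℝ) (z : ℝ × ℝ) (e : ℝ × ℝ) :
    fderiv ℝ f z e = e.1 * D1 f z + e.2 * D2 f z := by
  unfold D1 D2
  have : e = e.1 • ((1, 0) : ℝ × ℝ) + e.2 • ((0, 1) : ℝ × ℝ) := by ext <;> simp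
  conv_lhs => rw [this]
  rw [map_add, map_smul, map_smul, smul_eq_mul, smul_eq_mul]

/-! ### The derivative in time -/

theorem int_fst : Integrable (fun y : ℝ × ℝ => |y.1|) GG := by
  have h1 : Integrable (fun y : ℝ => y) (gaussianReal 0 1) :=
    (memLp_id_gaussianReal 1).integrable (by norm_num)
  exact (h1.comp_fst (gaussianReal 0 1)).abs

theorem int_snd : Integrable (fun y : ℝ × ℝ => |y.2|) GG := by
  have h1 : Integrable (fun y : ℝ => y) (gaussianReal 0 1) :=
    (memLp_id_gaussianReal 1).integrable (by norm_num)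
  exact (h1.comp_snd (gaussianReal 0 1)).abs

theorem sqrt_deriv {c t : ℝ} (hc : 0 < c) (ht : 0 < t) (y : ℝ) :
    HasDerivAt (fun t => Real.sqrt (2 * c * t) * y) (c / Real.sqrt (2 * c * t) * y) t := by
  have h0 : 2 * c * t ≠ 0 := by positivity
  have h1 : HasDerivAt (fun t : ℝ => 2 * c * t) (2 * c) t := by
    have := (hasDerivAt_id t).const_mul (2 * c)
    simpa using this
  have h2 := (h1.sqrt h0).mul_const y
  have e : 2 * c / (2 * Real.sqrt (2 * c * t)) = c / Real.sqrt (2 * c * t) := by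
    rw [mul_div_mul_left _ _ (two_ne_zero)]
  rw [e] at h2
  exact h2

theorem Ph_deriv (hκ : 0 < κ) {t : ℝ} (ht : 0 < t) (x y : ℝ × ℝ) :
    HasDerivAt (fun t => Ph κ x t y)
      (-(1 - κ) + 1 / Real.sqrt (2 * t) * y.1, κ / Real.sqrt (2 * κ * t) * y.2) t := by
  unfold Ph
  refine HasDerivAt.prodMk ?_ ?_
  · have h1 := sqrt_deriv (c := 1) one_pos ht y.1
    simp only [mul_one] at h1
    have h2 : HasDerivAt (fun t : ℝ => x.1 - (1 - κ) * t) (-(1 - κ)) t := by
      have := ((hasDerivAt_id t).const_mul (1 - κ)).const_sub x.1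
      simpa using this
    exact h2.add h1
  · exact (sqrt_deriv hκ ht y.2).const_add x.2

theorem Pt_dt (hκ : 0 < κ) {g : ℝ × ℝ → ℝ} (hg : ContDiff ℝ 1 g) (hA : ∀ z, |g z| ≤ A)
    (hB1 : ∀ z, |D1 g z| ≤ A) (hB2 : ∀ z, |D2 g z| ≤ A) (hc1 : Continuous (D1 g))
    (hc2 : Continuous (D2 g)) (x : ℝ × ℝ) {t : ℝ} (ht : 0 < t) :
    HasDerivAt (fun t => Pt κ t g x)
      (Pt1 κ t (D1 g) x - (1 - κ) * Pt κ t (D1 g) x + κ * Pt2 κ t (D2 g) x) t := by
  have hc : Continuous g := hg.continuous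
  have hA0 : 0 ≤ A := (abs_nonneg _).trans (hA 0)
  set F' : ℝ → ℝ × ℝ → ℝ := fun t y =>
    (-(1 - κ) + 1 / Real.sqrt (2 * t) * y.1) * D1 g (Ph κ x t y) +
      κ / Real.sqrt (2 * κ * t) * y.2 * D2 g (Ph κ x t y) with hF'
  have hbi : Integrable (fun y : ℝ × ℝ => (|1 - κ| + 1 / Real.sqrt t * |y.1|) * A +
      κ / Real.sqrt (κ * t) * |y.2| * A) GG := by
    exact (((integrable_const _).add (int_fst.const_mul _)).mul_const _).add
      ((int_snd.const_mul _).mul_const _)
  have hm : ∀ t, AEStronglyMeasurable (F' t) GG := by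
    intro t
    have h1 := cont_Ph_y κ x t
    have h2 : Continuous (F' t) := by
      simp only [hF']
      fun_prop
    exact h2.aestronglyMeasurable
  have key := hasDerivAt_integral_of_dominated_loc_of_deriv_le (μ := GG) (s := Ioi (t / 2))
    (F := fun t y => g (Ph κ x t y)) (F' := F') (x₀ := t)
    (bound := fun y => (|1 - κ| + 1 / Real.sqrt t * |y.1|) * A +
      κ / Real.sqrt (κ * t) * |y.2| * A)
    (Ioi_mem_nhds (by linarith)) (Eventually.of_forall fun s =>
      (hc.comp (cont_Ph_y κ x s)).aestronglyMeasurable) (int_Ph hc hA x t) (hm t) ?_ hbi ?_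
  · have h2 := key.2
    have hi1 : Integrable (fun y => D1 g (Ph κ x t y)) GG := int_Ph hc1 hB1 x t
    have hi2 : Integrable (fun y => y.1 * D1 g (Ph κ x t y)) GG := by
      refine Integrable.mono' (int_fst.mul_const A)
        ((by have := cont_Ph_y κ x t; fun_prop :
          Continuous fun y : ℝ × ℝ => y.1 * D1 g (Ph κ x t y)).aestronglyMeasurable) ?_
      refine Eventually.of_forall fun y => ?_
      rw [Real.norm_eq_abs, abs_mul]
      exact mul_le_mul_of_nonneg_left (hB1 _) (abs_nonneg _)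
    have hi3 : Integrable (fun y => y.2 * D2 g (Ph κ x t y)) GG := by
      refine Integrable.mono' (int_snd.mul_const A)
        ((by have := cont_Ph_y κ x t; fun_prop :
          Continuous fun y : ℝ × ℝ => y.2 * D2 g (Ph κ x t y)).aestronglyMeasurable) ?_
      refine Eventually.of_forall fun y => ?_
      rw [Real.norm_eq_abs, abs_mul]
      exact mul_le_mul_of_nonneg_left (hB2 _) (abs_nonneg _)
    have e1 : ∫ y, F' t y ∂GG =
        Pt1 κ t (D1 g) x - (1 - κ) * Pt κ t (D1 g) x + κ * Pt2 κ t (D2 g) x := by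
      have e2 : ∀ y, F' t y = (-(1 - κ) * D1 g (Ph κ x t y) +
          1 / Real.sqrt (2 * t) * (y.1 * D1 g (Ph κ x t y))) +
          κ / Real.sqrt (2 * κ * t) * (y.2 * D2 g (Ph κ x t y)) := by
        intro y
        simp only [hF']
        ring
      simp only [e2]
      have hs12 : Integrable (fun y => -(1 - κ) * D1 g (Ph κ x t y) +
          1 / Real.sqrt (2 * t) * (y.1 * D1 g (Ph κ x t y))) GG :=
        (hi1.const_mul _).add (hi2.const_mul _)
      rw [integral_add hs12 (hi3.const_mul _), integral_add (hi1.const_mul _) (hi2.const_mul _), integral_const_mul, integral_const_mul,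
        integral_const_mul]
      have e3 : Pt1 κ t (D1 g) x = 1 / Real.sqrt (2 * t) * ∫ y, y.1 * D1 g (Ph κ x t y) ∂GG := rfl
      have e4 : Pt2 κ t (D2 g) x =
          1 / Real.sqrt (2 * κ * t) * ∫ y, y.2 * D2 g (Ph κ x t y) ∂GG := rfl
      have e5 : Pt κ t (D1 g) x = ∫ y, D1 g (Ph κ x t y) ∂GG := rfl
      rw [e3, e4, e5]
      ring
    rw [e1] at h2
    exact h2
  · refine Eventually.of_forall fun y s hs => ?_
    have hs' : t / 2 < s := hs
    have hs0 : 0 < s := by linarith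
    rw [Real.norm_eq_abs]
    simp only [hF']
    have s1 : Real.sqrt t ≤ Real.sqrt (2 * s) := Real.sqrt_le_sqrt (by linarith)
    have s2 : Real.sqrt (κ * t) ≤ Real.sqrt (2 * κ * s) := Real.sqrt_le_sqrt (by nlinarith)
    have s1' : 0 < Real.sqrt t := Real.sqrt_pos.2 ht
    have s2' : 0 < Real.sqrt (κ * t) := Real.sqrt_pos.2 (by positivity)
    have t1 : 1 / Real.sqrt (2 * s) ≤ 1 / Real.sqrt t := one_div_le_one_div_of_le s1' s1
    have t2 : κ / Real.sqrt (2 * κ * s) ≤ κ / Real.sqrt (κ * t) :=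
      div_le_div_of_nonneg_left hκ.le s2' s2
    have t1' : 0 ≤ 1 / Real.sqrt (2 * s) := by positivity
    have t2' : 0 ≤ κ / Real.sqrt (2 * κ * s) := by positivity
    refine (abs_add_le _ _).trans (add_le_add ?_ ?_)
    · rw [abs_mul]
      refine mul_le_mul ?_ (hB1 _) (abs_nonneg _) (by positivity)
      refine (abs_add_le _ _).trans (add_le_add (by rw [abs_neg]) ?_)
      rw [abs_mul, abs_of_nonneg t1']
      exact mul_le_mul_of_nonneg_right t1 (abs_nonneg _)
    · rw [abs_mul, abs_mul, abs_of_nonneg t2']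
      refine mul_le_mul ?_ (hB2 _) (abs_nonneg _) (by positivity)
      exact mul_le_mul_of_nonneg_right t2 (abs_nonneg _)
  · refine Eventually.of_forall fun y s hs => ?_
    have hs' : t / 2 < s := hs
    have hs0 : 0 < s := by linarith
    have h1 := ((hg.differentiable (by norm_num) (Ph κ x s y)).hasFDerivAt).comp_hasDerivAt s
      (Ph_deriv hκ hs0 x y)
    rw [fderiv_eq] at h1
    exact h1

/-! ### The theorem -/

theorem pkRQb (h : GRQa) : GRQb := by
  intro κ q hκ hκ1 hq g A hg hA hB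
  obtain ⟨K, hK⟩ := h κ q hκ hκ1 hq
  have hc : Continuous g := hg.continuous
  have hn1 : ‖((1, 0) : ℝ × ℝ)‖ = 1 := by simp [Prod.norm_def]
  have hn2 : ‖((0, 1) : ℝ × ℝ)‖ = 1 := by simp [Prod.norm_def]
  have hc1 : Continuous (D1 g) :=
    (hg.continuous_fderiv (by norm_num)).clm_apply continuous_const
  have hc2 : Continuous (D2 g) :=
    (hg.continuous_fderiv (by norm_num)).clm_apply continuous_const
  have hB1 : ∀ z, |D1 g z| ≤ A := by
    intro z
    have := ((fderiv ℝ g z).le_opNorm (1, 0)).trans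
      (mul_le_mul_of_nonneg_right (hB z) (norm_nonneg _))
    rw [hn1, mul_one] at this
    exact this
  have hB2 : ∀ z, |D2 g z| ≤ A := by
    intro z
    have := ((fderiv ℝ g z).le_opNorm (0, 1)).trans
      (mul_le_mul_of_nonneg_right (hB z) (norm_nonneg _))
    rw [hn2, mul_one] at this
    exact this
  obtain ⟨R1, -, -, -, -, -, -⟩ := hK g A hc.measurable hA
  obtain ⟨S1, -, -, S4, -, S6, -⟩ := hK (D1 g) A hc1.measurable hB1
  obtain ⟨T1, -, -, -, T5, -, T7⟩ := hK (D2 g) A hc2.measurable hB2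
  have hD1 : D1 (Rq κ q g) = Rq κ q (D1 g) := by
    funext x
    exact fderiv_Rq hq hg hA hB R1 x (1, 0)
  have hD2 : D2 (Rq κ q g) = Rq κ q (D2 g) := by
    funext x
    exact fderiv_Rq hq hg hA hB R1 x (0, 1)
  refine ⟨?_, ?_⟩
  · have e : (2 : WithTop ℕ∞) = 1 + 1 := by norm_num
    rw [e, contDiff_succ_iff_fderiv_apply]
    refine ⟨R1.differentiable (by norm_num), fun h0 => ?_, fun e => ?_⟩
    · exact absurd h0 (by decide)
    · simp only [fderiv_eq]
      rw [show D1 (Rq κ q g) = Rq κ q (D1 g) from hD1, show D2 (Rq κ q g) = Rq κ q (D2 g) from hD2]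
      exact (contDiff_const.mul S1).add (contDiff_const.mul T1)
  · intro x
    unfold LL
    rw [hD1, hD2, S4, T5]
    have i1 := S6 x
    have i2 := T7 x
    have i3 := exp_mul_int (A := A) hq (Pt_cont (κ := κ) hc1 hB1 x) (fun t => Pt_bound hB1 x t)
    have i4 := exp_mul_int (A := A) hq (Pt_cont (κ := κ) hc hA x) (fun t => Pt_bound hA x t)
    have hy0 : Pt κ 0 g x = g x := by
      rw [Pt_eq]
      simp only [Ph_zero]
      simp
    have hfc : Continuous (fun t => Real.exp (-(q * t)) * Pt κ t g x) := by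
      have := Pt_cont (κ := κ) hc hA x
      fun_prop
    have hint := integral_Ioi_of_hasDerivAt_of_tendsto (a := 0) (m := 0)
      (f := fun t => Real.exp (-(q * t)) * Pt κ t g x)
      (f' := fun t => (Real.exp (-(q * t)) * Pt1 κ t (D1 g) x -
        (1 - κ) * (Real.exp (-(q * t)) * Pt κ t (D1 g) x) +
        κ * (Real.exp (-(q * t)) * Pt2 κ t (D2 g) x)) -
        q * (Real.exp (-(q * t)) * Pt κ t g x)) hfc.continuousWithinAt ?_ ?_ ?_
    · rw [integral_sub, integral_add, integral_sub, integral_const_mul, integral_const_mul,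
        integral_const_mul] at hint
      · simp only [mul_zero, neg_zero, Real.exp_zero, one_mul, hy0, zero_sub] at hint
        unfold Rq
        linarith
      · exact i1
      · exact i3.const_mul _
      · exact i1.sub (i3.const_mul _)
      · exact i2.const_mul _
      · exact (i1.sub (i3.const_mul _)).add (i2.const_mul _)
      · exact i4.const_mul _
    · intro t ht
      have h1 := Pt_dt hκ hg hA hB1 hB2 hc1 hc2 x ht
      have h2 : HasDerivAt (fun t : ℝ => Real.exp (-(q * t))) (Real.exp (-(q * t)) * -q) t := by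
        have := ((hasDerivAt_id t).const_mul q).neg.exp
        simpa using this
      have h3 := h2.mul h1
      refine h3.congr_deriv ?_
      ring
    · exact ((i1.sub (i3.const_mul _)).add (i2.const_mul _)).sub (i4.const_mul _)
    · have h1 : Tendsto (fun t : ℝ => Real.exp (-(q * t))) atTop (𝓝 0) := by
        refine Real.tendsto_exp_neg_atTop_nhds_zero.comp ?_
        exact tendsto_id.const_mul_atTop hq
      have h2 : Tendsto (fun t : ℝ => Real.exp (-(q * t)) * A) atTop (𝓝 0) := by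
        simpa using h1.mul_const A
      refine squeeze_zero_norm (fun t => ?_) h2
      rw [Real.norm_eq_abs, abs_mul, abs_of_pos (Real.exp_pos _)]
      exact mul_le_mul_of_nonneg_left (Pt_bound hA x t) (Real.exp_pos _).le

end Pool.Agent.Helper50.PCap
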