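import Pool.Agent.Helper25.PCap.Defs

/-!
# Calculus with `D1`, `D2`, `LL` (MP_576c25_an)
-/

set_option autoImplicit false

open MeasureTheory Set Filter Topology
open scoped ContDiff Real

noncomputable section

namespace Pool.Agent.Helper50.PCap.Tools

open Pool.Agent.Helper25.PCap

theorem hasDerivAt_D1 {f : ℝ × ℝ → ℝ} {τ θ : ℝ} (hf : DifferentiableAt ℝ f (τ, θ)) :
    HasDerivAt (fun τ => f (τ, θ)) (D1 f (τ, θ)) τ := by
  have h1 : HasDerivAt (fun τ : ℝ => ((τ, θ) : ℝ × ℝ)) (1, 0) τ :=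
    (hasDerivAt_id τ).prodMk (hasDerivAt_const τ θ)
  exact hf.hasFDerivAt.comp_hasDerivAt τ h1

theorem hasDerivAt_D2 {f : ℝ × ℝ → ℝ} {τ θ : ℝ} (hf : DifferentiableAt ℝ f (τ, θ)) :
    HasDerivAt (fun θ => f (τ, θ)) (D2 f (τ, θ)) θ := by
  have h1 : HasDerivAt (fun θ : ℝ => ((τ, θ) : ℝ × ℝ)) (0, 1) θ :=
    (hasDerivAt_const θ τ).prodMk (hasDerivAt_id θ)
  exact hf.hasFDerivAt.comp_hasDerivAt θ h1

theorem D1_eq {f : ℝ × ℝ → ℝ} {τ θ d : ℝ} (hf : DifferentiableAt ℝ f (τ, θ))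
    (h : HasDerivAt (fun τ => f (τ, θ)) d τ) : D1 f (τ, θ) = d := (hasDerivAt_D1 hf).unique h

theorem D2_eq {f : ℝ × ℝ → ℝ} {τ θ d : ℝ} (hf : DifferentiableAt ℝ f (τ, θ))
    (h : HasDerivAt (fun θ => f (τ, θ)) d θ) : D2 f (τ, θ) = d := (hasDerivAt_D2 hf).unique h

theorem D1_congr {f g : ℝ × ℝ → ℝ} {z : ℝ × ℝ} (h : f =ᶠ[𝓝 z] g) : D1 f z = D1 g z := by
  unfold D1; rw [h.fderiv_eq]

theorem D2_congr {f g : ℝ × ℝ → ℝ} {z : ℝ × ℝ} (h : f =ᶠ[𝓝 z] g) : D2 f z = D2 g z := by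
  unfold D2; rw [h.fderiv_eq]

theorem D1_sub {f g : ℝ × ℝ → ℝ} {z : ℝ × ℝ} (hf : DifferentiableAt ℝ f z)
    (hg : DifferentiableAt ℝ g z) : D1 (fun z => f z - g z) z = D1 f z - D1 g z := by
  unfold D1; rw [fderiv_fun_sub hf hg]; rfl

theorem D2_sub {f g : ℝ × ℝ → ℝ} {z : ℝ × ℝ} (hf : DifferentiableAt ℝ f z)
    (hg : DifferentiableAt ℝ g z) : D2 (fun z => f z - g z) z = D2 f z - D2 g z := by
  unfold D2; rw [fderiv_fun_sub hf hg]; rfl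

theorem D1_add {f g : ℝ × ℝ → ℝ} {z : ℝ × ℝ} (hf : DifferentiableAt ℝ f z)
    (hg : DifferentiableAt ℝ g z) : D1 (fun z => f z + g z) z = D1 f z + D1 g z := by
  unfold D1; rw [fderiv_fun_add hf hg]; rfl

theorem D2_add {f g : ℝ × ℝ → ℝ} {z : ℝ × ℝ} (hf : DifferentiableAt ℝ f z)
    (hg : DifferentiableAt ℝ g z) : D2 (fun z => f z + g z) z = D2 f z + D2 g z := by
  unfold D2; rw [fderiv_fun_add hf hg]; rfl

theorem D1_const_mul {f : ℝ × ℝ → ℝ} {z : ℝ × ℝ} (c : ℝ) (hf : DifferentiableAt ℝ f z) :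
    D1 (fun z => c * f z) z = c * D1 f z := by
  unfold D1; rw [fderiv_const_mul hf]; rfl

theorem D2_const_mul {f : ℝ × ℝ → ℝ} {z : ℝ × ℝ} (c : ℝ) (hf : DifferentiableAt ℝ f z) :
    D2 (fun z => c * f z) z = c * D2 f z := by
  unfold D2; rw [fderiv_const_mul hf]; rfl

theorem D1_contDiff {f : ℝ × ℝ → ℝ} {n m : WithTop ℕ∞} (hf : ContDiff ℝ n f) (h : m + 1 ≤ n) :
    ContDiff ℝ m (D1 f) := (hf.fderiv_right h).clm_apply contDiff_const

theorem D2_contDiff {f : ℝ × ℝ → ℝ} {n m : WithTop ℕ∞} (hf : ContDiff ℝ n f) (h : m + 1 ≤ n) :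
    ContDiff ℝ m (D2 f) := (hf.fderiv_right h).clm_apply contDiff_const

section
variable {f g : ℝ × ℝ → ℝ} {V : Set (ℝ × ℝ)}

theorem D1_contDiffOn (hV : IsOpen V) (hf : ContDiffOn ℝ ∞ f V) : ContDiffOn ℝ ∞ (D1 f) V :=
  (hf.fderiv_of_isOpen hV (by norm_num)).clm_apply contDiffOn_const

theorem D2_contDiffOn (hV : IsOpen V) (hf : ContDiffOn ℝ ∞ f V) : ContDiffOn ℝ ∞ (D2 f) V :=
  (hf.fderiv_of_isOpen hV (by norm_num)).clm_apply contDiffOn_const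

theorem diffAt (hV : IsOpen V) (hf : ContDiffOn ℝ ∞ f V) {z : ℝ × ℝ} (hz : z ∈ V) :
    DifferentiableAt ℝ f z :=
  (hf.contDiffAt (hV.mem_nhds hz)).differentiableAt (by norm_num)

/-- The partial derivatives commute. -/
theorem D21 (hV : IsOpen V) (hf : ContDiffOn ℝ ∞ f V) {z : ℝ × ℝ} (hz : z ∈ V) :
    D2 (D1 f) z = D1 (D2 f) z := by
  have hfa : ContDiffAt ℝ ∞ f z := hf.contDiffAt (hV.mem_nhds hz)
  have hd : DifferentiableAt ℝ (fderiv ℝ f) z :=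
    (hfa.fderiv_right (m := ∞) (by norm_num)).differentiableAt (by norm_num)
  have hs : IsSymmSndFDerivAt ℝ f z := hfa.isSymmSndFDerivAt (by
    rw [minSmoothness_of_isRCLikeNormedField]
    exact WithTop.coe_le_coe.2 (le_top : (2 : ℕ∞) ≤ ⊤))
  have e1 : D2 (D1 f) z = fderiv ℝ (fderiv ℝ f) z (0, 1) (1, 0) := by
    change fderiv ℝ (fun z => fderiv ℝ f z (1, 0)) z (0, 1) = _
    rw [fderiv_clm_apply hd (differentiableAt_const _)]
    simp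
  have e2 : D1 (D2 f) z = fderiv ℝ (fderiv ℝ f) z (1, 0) (0, 1) := by
    change fderiv ℝ (fun z => fderiv ℝ f z (0, 1)) z (1, 0) = _
    rw [fderiv_clm_apply hd (differentiableAt_const _)]
    simp
  rw [e1, e2]
  exact hs.eq _ _

theorem D2_ev (hV : IsOpen V) (h : ∀ z ∈ V, f z = g z) {z : ℝ × ℝ} (hz : z ∈ V) :
    f =ᶠ[𝓝 z] g := by
  filter_upwards [hV.mem_nhds hz] with w hw using h w hw

/-- The operator commutes with `D1`. -/
theorem LL_D1 {κ : ℝ} (hV : IsOpen V) (hf : ContDiffOn ℝ ∞ f V) (h : ∀ z ∈ V, LL κ f z = 0) :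
    ∀ z ∈ V, LL κ (D1 f) z = 0 := by
  intro z hz
  have f1 := D1_contDiffOn hV hf
  have f2 := D2_contDiffOn hV hf
  have f11 := D1_contDiffOn hV f1
  have f22 := D2_contDiffOn hV f2
  have e1 : D1 (fun w => (D1 (D1 f) w - (1 - κ) * D1 f w) + κ * D2 (D2 f) w) z =
      (D1 (D1 (D1 f)) z - (1 - κ) * D1 (D1 f) z) + κ * D1 (D2 (D2 f)) z := by
    rw [D1_add, D1_sub, D1_const_mul, D1_const_mul]
    · exact diffAt hV f22 hz
    · exact diffAt hV f1 hz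
    · exact diffAt hV f11 hz
    · exact (diffAt hV f1 hz).const_mul _
    · exact (diffAt hV f11 hz).sub ((diffAt hV f1 hz).const_mul _)
    · exact (diffAt hV f22 hz).const_mul _
  have e2 : D1 (fun w => (D1 (D1 f) w - (1 - κ) * D1 f w) + κ * D2 (D2 f) w) z = 0 := by
    have : (fun w => (D1 (D1 f) w - (1 - κ) * D1 f w) + κ * D2 (D2 f) w) =ᶠ[𝓝 z] fun _ => 0 := by
      filter_upwards [hV.mem_nhds hz] with w hw using h w hw
    rw [D1_congr this]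
    unfold D1
    simp
  have e3 : D2 (D2 (D1 f)) z = D1 (D2 (D2 f)) z := by
    have : D2 (D1 f) =ᶠ[𝓝 z] D1 (D2 f) := D2_ev hV (fun w hw => D21 hV hf hw) hz
    rw [D2_congr this]
    exact D21 hV f2 hz
  unfold LL
  rw [e3, ← e1, e2]

theorem LL_sub {κ : ℝ} (hV : IsOpen V) (hf : ContDiffOn ℝ ∞ f V) (hg : ContDiffOn ℝ ∞ g V)
    {z : ℝ × ℝ} (hz : z ∈ V) : LL κ (fun z => f z - g z) z = LL κ f z - LL κ g z := by
  have f1 := D1_contDiffOn hV hf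
  have f2 := D2_contDiffOn hV hf
  have g1 := D1_contDiffOn hV hg
  have g2 := D2_contDiffOn hV hg
  have e1 : D1 (fun z => f z - g z) =ᶠ[𝓝 z] fun z => D1 f z - D1 g z :=
    D2_ev hV (fun w hw => D1_sub (diffAt hV hf hw) (diffAt hV hg hw)) hz
  have e2 : D2 (fun z => f z - g z) =ᶠ[𝓝 z] fun z => D2 f z - D2 g z :=
    D2_ev hV (fun w hw => D2_sub (diffAt hV hf hw) (diffAt hV hg hw)) hz
  unfold LL
  rw [D1_congr e1, D2_congr e2, D1_sub (diffAt hV hf hz) (diffAt hV hg hz),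
    D1_sub (diffAt hV f1 hz) (diffAt hV g1 hz), D2_sub (diffAt hV f2 hz) (diffAt hV g2 hz)]
  ring

end

end Pool.Agent.Helper50.PCap.Tools
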