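import Pool.Agent.Helper25.PCap.GoalsT
import Pool.Agent.Helper25.PCap.GoalsTools
import Pool.Agent.Helper50.PCap.Tools

/-!
# Configurations near a smooth strictly convex body (MP_576c25_an, packet TPART)
-/

set_option autoImplicit false

open MeasureTheory Set Filter Topology
open scoped ContDiff Real

noncomputable section

namespace Pool.Agent.Helper50.PCap

open Pool.Agent.Helper25.PCap
open Pool.Agent.Helper50.PCap.Tools

/-! ### The function `e ^ τ * H θ` -/

/-- The product `e ^ τ * H θ`. -/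
def PP (H : ℝ → ℝ) (z : ℝ × ℝ) : ℝ := Real.exp z.1 * H z.2

theorem PP_contDiff {H : ℝ → ℝ} (hH : ContDiff ℝ ∞ H) : ContDiff ℝ ∞ (PP H) :=
  (Real.contDiff_exp.comp contDiff_fst).mul (hH.comp contDiff_snd)

theorem PP_D1 {H : ℝ → ℝ} (hH : ContDiff ℝ ∞ H) : D1 (PP H) = PP H := by
  funext z
  obtain ⟨τ, θ⟩ := z
  refine D1_eq ((PP_contDiff hH).differentiable (by norm_num) _) ?_
  exact (Real.hasDerivAt_exp τ).mul_const (H θ)

theorem PP_D2 {H : ℝ → ℝ} (hH : ContDiff ℝ ∞ H) : D2 (PP H) = PP (deriv H) := by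
  funext z
  obtain ⟨τ, θ⟩ := z
  refine D2_eq ((PP_contDiff hH).differentiable (by norm_num) _) ?_
  exact (hH.differentiable (by norm_num) θ).hasDerivAt.const_mul (Real.exp τ)

theorem deriv_smooth {H : ℝ → ℝ} (hH : ContDiff ℝ ∞ H) : ContDiff ℝ ∞ (deriv H) :=
  (contDiff_infty_iff_deriv.1 hH).2

theorem deriv_periodic {H : ℝ → ℝ} {c : ℝ} (h : ∀ θ, H (θ + c) = H θ) (θ : ℝ) :
    deriv H (θ + c) = deriv H θ := by
  rw [← deriv_comp_add_const]
  congr 1
  funext t
  exact h t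

/-! ### Monotonicity from convexity -/

theorem tangent_mono {Z : ℝ × ℝ → ℝ} (hZ : ContDiff ℝ 2 Z) {θ : ℝ}
    (hconv : ConvexOn ℝ (Ioi (0 : ℝ)) (fun t => Z (Real.log t, θ))) {τ τ' : ℝ} (h : τ ≤ τ') :
    Z (τ', θ) - D1 Z (τ', θ) ≤ Z (τ, θ) - D1 Z (τ, θ) := by
  rcases h.eq_or_lt with rfl | hlt
  · exact le_rfl
  have hd : Differentiable ℝ Z := hZ.differentiable (by norm_num)
  have hder : ∀ σ : ℝ, HasDerivAt (fun t => Z (Real.log t, θ)) (D1 Z (σ, θ) / Real.exp σ)
      (Real.exp σ) := by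
    intro σ
    have h1 : HasDerivAt (fun τ => Z (τ, θ)) (D1 Z (σ, θ)) (Real.log (Real.exp σ)) := by
      rw [Real.log_exp]
      exact hasDerivAt_D1 (hd _)
    have h2 := h1.comp (Real.exp σ) (Real.hasDerivAt_log (Real.exp_pos σ).ne')
    rw [div_eq_mul_inv]
    exact h2
  have ht : Real.exp τ < Real.exp τ' := Real.exp_lt_exp.2 hlt
  have p1 : Real.exp τ ∈ Ioi (0 : ℝ) := Real.exp_pos τ
  have p2 : Real.exp τ' ∈ Ioi (0 : ℝ) := Real.exp_pos τ'
  have s1 := hconv.le_slope_of_hasDerivAt p1 p2 ht (hder τ)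
  have s2 := hconv.slope_le_of_hasDerivAt p1 p2 ht (hder τ')
  rw [slope_def_field, Real.log_exp, Real.log_exp] at s1 s2
  set t := Real.exp τ with hte
  set t' := Real.exp τ' with hte'
  have t0 : 0 < t := Real.exp_pos τ
  have t0' : 0 < t' := Real.exp_pos τ'
  set q := (Z (τ', θ) - Z (τ, θ)) / (t' - t) with hq
  have hq1 : Z (τ', θ) - Z (τ, θ) = q * (t' - t) := by
    rw [hq, div_mul_cancel₀ _ (sub_pos.2 ht).ne']
  rw [div_le_iff₀ t0] at s1
  rw [le_div_iff₀ t0'] at s2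
  linarith

/-! ### The theorem -/

theorem periodic_bounds {f : ℝ → ℝ} (hc : Continuous f) (hp : ∀ θ, f (θ + 2 * π) = f θ)
    (hpos : ∀ θ, 0 < f θ) : ∃ a b : ℝ, 0 < a ∧ 0 < b ∧ ∀ θ, a ≤ f θ ∧ f θ ≤ b := by
  have hper : Function.Periodic f (2 * π) := hp
  have hcomp := hper.compact_of_continuous (by positivity) hc
  obtain ⟨a, ha⟩ := hcomp.exists_isLeast (range_nonempty _)
  obtain ⟨b, hb⟩ := hcomp.bddAbove
  obtain ⟨θ₀, hθ₀⟩ := ha.1
  refine ⟨a, b, hθ₀ ▸ hpos θ₀, (hpos 0).trans_le (hb ⟨0, rfl⟩), fun θ => ⟨ha.2 ⟨θ, rfl⟩,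
    hb ⟨θ, rfl⟩⟩⟩

/-- PACKET TPART. -/
theorem pkTPart (h0 : GT0) (h1 : GT1) (h3 : GT3) (hl : GLevel) (hr : GReg) (hs : GSMPc) :
    TPart := by
  intro κ hκ hκ1 H hH hper hrho tol htol
  have hH1 := deriv_smooth hH
  have hH2 := deriv_smooth hH1
  have he : 0 < 1 - κ := by linarith
  -- the bounds for the curvature radius
  have hrc : Continuous (rho H) := hH.continuous.add hH2.continuous
  have hrper : ∀ θ, rho H (θ + 2 * π) = rho H θ := by
    intro θ
    unfold rho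
    rw [hper, deriv_periodic (deriv_periodic hper)]
  obtain ⟨ρ₀, ρ₁, hρ₀, hρ₁, hρ⟩ := periodic_bounds hrc hrper hrho
  have hsupp : SuppFn H ρ₀ ρ₁ := ⟨hH, hper, hρ₀, hρ⟩
  obtain ⟨G, hG⟩ := h0
  -- constants
  set A : ℝ := max 1 (4 * κ * ρ₁ / (1 - κ) ^ 2) with hA
  have hA1 : 1 ≤ A := le_max_left _ _
  set γ : ℝ := (1 - κ) / 2 with hγ
  have hγ0 : 0 < γ := by positivity
  have hγ1 : γ < 1 := by rw [hγ]; linarith
  set B : ℝ := Real.exp (Real.log (2 * A) / γ) with hB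
  have hB0 : 0 < B := Real.exp_pos _
  set dl : ℝ := min (1 / 2) (tol / B) with hdl
  have hdl0 : 0 < dl := lt_min (by norm_num) (by positivity)
  have hdl1 : dl ≤ 1 / 2 := min_le_left _ _
  have hdl2 : dl * B ≤ tol := by
    have : dl ≤ tol / B := min_le_right _ _
    rwa [le_div_iff₀ hB0] at this
  set s : ℝ := 1 - dl with hsdef
  have hs0 : 1 / 2 ≤ s := by rw [hsdef]; linarith
  have hspos : 0 < s := by linarith
  have hs1 : s < 1 := by rw [hsdef]; linarith
  set s' : ℝ := (1 + s) / 2 with hs'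
  have hss' : s < s' := by rw [hs']; linarith
  have hs'1 : s' < 1 := by rw [hs']; linarith
  obtain ⟨η, hη0, hη⟩ := h3 κ ρ₀ ρ₁ hκ hκ1 (1 - s') (by linarith)
  obtain ⟨Z, hZ⟩ := h1 κ ρ₀ ρ₁ η H G hκ hκ1 hsupp hG hη0
  have hZ3 := hη η H G Z hsupp hG hη0 le_rfl hZ
  obtain ⟨z1, z2, z3, z4, z5, z6, z7⟩ := hZ
  have hZd : Differentiable ℝ Z := z1.differentiable (by norm_num)
  have hZD1 : ContDiff ℝ 1 (D1 Z) := D1_contDiff z1 (by norm_num)
  have hZD2 : ContDiff ℝ 1 (D2 Z) := D2_contDiff z1 (by norm_num)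
  have hZ1d : Differentiable ℝ (D1 Z) := hZD1.differentiable (by norm_num)
  have hZ2d : Differentiable ℝ (D2 Z) := hZD2.differentiable (by norm_num)
  have hPd : Differentiable ℝ (PP H) := (PP_contDiff hH).differentiable (by norm_num)
  have hPd' : Differentiable ℝ (PP (deriv H)) := (PP_contDiff hH1).differentiable (by norm_num)
  -- the function `W`
  set W : ℝ × ℝ → ℝ := fun z => PP H z - Z z with hW
  have hWC : ContDiff ℝ 2 W := ((PP_contDiff hH).of_le (by norm_cast)).sub z1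
  have hW1 : D1 W = fun z => PP H z - D1 Z z := by
    funext z
    rw [hW, D1_sub (hPd z) (hZd z), PP_D1 hH]
  have hW2 : D2 W = fun z => PP (deriv H) z - D2 Z z := by
    funext z
    rw [hW, D2_sub (hPd z) (hZd z), PP_D2 hH]
  have hW11 : D1 (D1 W) = fun z => PP H z - D1 (D1 Z) z := by
    funext z
    rw [hW1, D1_sub (hPd z) (hZ1d z), PP_D1 hH]
  have hW22 : D2 (D2 W) = fun z => PP (deriv (deriv H)) z - D2 (D2 Z) z := by
    funext z
    rw [hW2, D2_sub (hPd' z) (hZ2d z), PP_D2 hH1]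
  set V : Set (ℝ × ℝ) := {z | η * Real.exp z.1 < Z z} with hV
  have hVo : IsOpen V := isOpen_lt (by fun_prop) z1.continuous
  have hLW : ∀ z ∈ V, LL κ W z = 0 := by
    intro z hz
    have hz' : η * Real.exp z.1 < Z z := hz
    have e1 := z4 z
    have e2 : G (Z z / (η * Real.exp z.1)) = 1 := by
      apply hG.2.2.1
      rw [le_div_iff₀ (by positivity), one_mul]
      exact hz'.le
    rw [e2, mul_one] at e1
    unfold LL at e1 ⊢
    rw [hW22, hW11, hW1]
    simp only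
    unfold rho at e1
    unfold PP
    linarith
  have hWs : ContDiffOn ℝ ∞ W V := hr κ hκ hκ1 V W hVo hWC.contDiffOn hLW
  -- the function `u`
  set u : ℝ × ℝ → ℝ := fun z => 1 - Z z + D1 Z z with hu
  have huc : Continuous u := (continuous_const.sub z1.continuous).add hZD1.continuous
  have hWu : ∀ z, 1 + W z - D1 W z = u z := by
    intro z
    rw [hW1]
    simp only [hW, hu]
    ring
  have hmono : ∀ θ τ τ' : ℝ, τ ≤ τ' → u (τ, θ) ≤ u (τ', θ) := by
    intro θ τ τ' hττ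
    have := tangent_mono z1 (z6 θ) hττ
    simp only [hu]
    linarith
  have hZneg : ∀ τ θ : ℝ, D1 Z (τ, θ) ≤ 0 := by
    intro τ θ
    exact (hasDerivAt_D1 (hZd (τ, θ))).nonpos_of_antitone fun a b hab => z5 a b θ hab
  have hup : ∀ τ θ : ℝ, u (τ, θ) ≤ A * Real.exp (γ * τ) := by
    intro τ θ
    have q1 := z7 (τ, θ)
    have q2 := hZneg τ θ
    simp only [hu]
    simp only at q1
    linarith
  have hnotV : ∀ z : ℝ × ℝ, z ∉ V → s' < u z := by
    intro z hz
    have hz' : Z z ≤ η * Real.exp z.1 := not_lt.1 hz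
    have := hZ3 z hz'
    simp only [hu]
    linarith
  have hinV : ∀ z : ℝ × ℝ, u z ≤ s' → z ∈ V := by
    intro z hz
    by_contra h
    exact absurd (hnotV z h) (not_lt.2 hz)
  -- the behaviour at both ends
  obtain ⟨τlow, hτlow⟩ : ∃ τ' : ℝ, ∀ τ ≤ τ', A * Real.exp (γ * τ) ≤ s / 2 := by
    have t1 : Tendsto (fun τ : ℝ => A * Real.exp (γ * τ)) atBot (𝓝 (A * 0)) := by
      refine Tendsto.const_mul A ?_
      exact Real.tendsto_exp_atBot.comp (tendsto_id.const_mul_atBot hγ0)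
    rw [mul_zero] at t1
    exact eventually_atBot.1 (t1.eventually (ge_mem_nhds (by positivity)))
  have hlow : ∀ τ θ : ℝ, τ ≤ τlow → u (τ, θ) < s := by
    intro τ θ hτ
    have := (hup τ θ).trans (hτlow τ hτ)
    linarith
  set τhigh : ℝ := max τlow (Real.log (1 / η)) with hτhigh
  have hhigh : ∀ τ θ : ℝ, τhigh ≤ τ → s' < u (τ, θ) := by
    intro τ θ hτ
    apply hnotV
    simp only [hV, mem_ofPred_eq, not_lt]
    refine (z2 (τ, θ)).2.trans ?_
    have q1 : Real.log (1 / η) ≤ τ := (le_max_right _ _).trans hτ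
    have q2 : 1 / η ≤ Real.exp τ := by
      rw [← Real.exp_log (by positivity : 0 < 1 / η)]
      exact Real.exp_le_exp.2 q1
    rw [div_le_iff₀ hη0] at q2
    linarith
  -- the derivative of `u`
  set ψ : ℝ × ℝ → ℝ := fun z => D1 W z - D1 (D1 W) z with hψ
  have huder : ∀ τ θ : ℝ, HasDerivAt (fun τ => u (τ, θ)) (ψ (τ, θ)) τ := by
    intro τ θ
    have d1 := hasDerivAt_D1 (hZd (τ, θ))
    have d2 := hasDerivAt_D1 (hZ1d (τ, θ))
    have d3 := (d1.const_sub 1).add d2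
    refine d3.congr_deriv ?_
    simp only [hψ]
    rw [hW11, hW1]
    ring
  have hψ0 : ∀ z, 0 ≤ ψ z := fun z =>
    (huder z.1 z.2).nonneg_of_monotone fun a b hab => hmono z.2 a b hab
  -- the open set `O`
  set O : Set (ℝ × ℝ) := {z | u z < s'} with hO
  have hOo : IsOpen O := isOpen_lt huc continuous_const
  have hOV : O ⊆ V := fun z hz => hinV z (le_of_lt hz)
  have hOc : IsPreconnected O := by
    have hL : IsPreconnected (Iic τlow ×ˢ (univ : Set ℝ)) :=
      ((convex_Iic τlow).prod convex_univ).isPreconnected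
    have hLO : Iic τlow ×ˢ (univ : Set ℝ) ⊆ O := by
      rintro ⟨τ, θ⟩ ⟨h5, -⟩
      exact (hlow τ θ h5).trans hss'
    refine isPreconnected_of_forall (τlow, 0) ?_
    rintro ⟨τ, θ⟩ hy
    refine ⟨(Iic τ ×ˢ {θ}) ∪ (Iic τlow ×ˢ (univ : Set ℝ)), ?_, ?_, ?_, ?_⟩
    · refine union_subset ?_ hLO
      rintro ⟨τ', θ'⟩ ⟨h5, h6⟩
      have h6' : θ' = θ := h6
      rw [h6']
      exact lt_of_le_of_lt (hmono θ τ' τ h5) hy
    · exact Or.inr ⟨mem_Iic.2 le_rfl, mem_univ _⟩
    · exact Or.inl ⟨mem_Iic.2 le_rfl, rfl⟩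
    · refine IsPreconnected.union (min τ τlow, θ) ?_ ?_ ?_ hL
      · exact ⟨mem_Iic.2 (min_le_left _ _), rfl⟩
      · exact ⟨mem_Iic.2 (min_le_right _ _), mem_univ _⟩
      · exact ((convex_Iic τ).prod (convex_singleton θ)).isPreconnected
  have hW1s := D1_contDiffOn hVo hWs
  have hW11s := D1_contDiffOn hVo hW1s
  have hψs : ContDiffOn ℝ ∞ ψ V := hW1s.sub hW11s
  have hLψ : ∀ z ∈ V, LL κ ψ z = 0 := by
    intro z hz
    have l1 := LL_D1 hVo hWs hLW
    have l2 := LL_D1 hVo hW1s l1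
    rw [hψ, LL_sub hVo hW1s hW11s hz, l1 z hz, l2 z hz, sub_zero]
  have hivt : ∀ θ : ℝ, ∃ τ : ℝ, u (τ, θ) = s := by
    intro θ
    have hle : τlow ≤ τhigh := le_max_left _ _
    have hc : ContinuousOn (fun τ => u (τ, θ)) (Icc τlow τhigh) := by fun_prop
    obtain ⟨τ, -, h6⟩ := intermediate_value_Icc hle hc
      ⟨(hlow τlow θ le_rfl).le, (hss'.trans (hhigh τhigh θ le_rfl)).le⟩
    exact ⟨τ, h6⟩
  have hψpos : ∀ z ∈ O, 0 < ψ z := by
    intro z₀ hz₀
    rcases (hψ0 z₀).lt_or_eq with h5 | h5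
    · exact h5
    exfalso
    have hzero := hs κ hκ O ψ z₀ hOo hOc ((hψs.mono hOV).of_le (by norm_cast))
      (fun z _ => hψ0 z) (fun z hz => hLψ z (hOV hz)) hz₀ h5.symm
    obtain ⟨τ, hτ⟩ := hivt 0
    have hτl : τlow ≤ τ := by
      by_contra hcon
      push Not at hcon
      have := hlow τ 0 hcon.le
      rw [hτ] at this
      exact lt_irrefl _ this
    have hsub : ∀ σ ∈ Icc τlow τ, (σ, (0 : ℝ)) ∈ O := by
      intro σ hσ
      have := hmono 0 σ τ hσ.2
      rw [hτ] at this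
      exact lt_of_le_of_lt this hss'
    have hcst : u (τ, 0) = u (τlow, 0) := by
      refine constant_of_has_deriv_right_zero (f := fun σ => u (σ, 0)) (a := τlow) (b := τ)
        (by fun_prop) (fun σ hσ => ?_) τ ⟨hτl, le_rfl⟩
      have h6 := (huder σ 0).hasDerivWithinAt (s := Ici σ)
      rwa [hzero (σ, 0) (hsub σ ⟨hσ.1, hσ.2.le⟩)] at h6
    have := hlow τlow 0 le_rfl
    rw [← hcst, hτ] at this
    exact lt_irrefl _ this
  -- the level set
  have hstrict : ∀ θ τ τ' : ℝ, τ < τ' → u (τ', θ) < s' → u (τ, θ) < u (τ', θ) := by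
    intro θ τ τ' hlt hu'
    have hsm : StrictMonoOn (fun σ => u (σ, θ)) (Icc τ τ') := by
      refine strictMonoOn_of_deriv_pos (convex_Icc τ τ') (by fun_prop) fun σ hσ => ?_
      rw [interior_Icc] at hσ
      rw [(huder σ θ).deriv]
      exact hψpos (σ, θ) (lt_of_le_of_lt (hmono θ σ τ' hσ.2.le) hu')
    exact hsm ⟨le_rfl, hlt.le⟩ ⟨hlt.le, le_rfl⟩ hlt
  choose T hTs using hivt
  have hlt_iff : ∀ τ θ : ℝ, u (τ, θ) < s ↔ τ < T θ := by
    intro τ θ
    constructor
    · intro h5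
      by_contra h6
      have := hmono θ (T θ) τ (not_lt.1 h6)
      rw [hTs] at this
      linarith
    · intro h5
      have := hstrict θ τ (T θ) h5 (by rw [hTs]; exact hss')
      rwa [hTs] at this
  have hle_iff : ∀ τ θ : ℝ, u (τ, θ) ≤ s ↔ τ ≤ T θ := by
    intro τ θ
    constructor
    · intro h5
      by_contra h6
      have h6' : T θ < τ := not_le.1 h6
      have := hstrict θ (T θ) τ h6' (lt_of_le_of_lt h5 hss')
      rw [hTs] at this
      linarith
    · intro h5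
      have := hmono θ τ (T θ) h5
      rwa [hTs] at this
  have hTc : Continuous T := by
    rw [continuous_iff_continuousAt]
    intro θ₀
    refine tendsto_order.2 ⟨fun a ha => ?_, fun a ha => ?_⟩
    · have h5 : u (a, θ₀) < s := (hlt_iff a θ₀).2 ha
      have hc : ContinuousAt (fun θ => u (a, θ)) θ₀ := by fun_prop
      filter_upwards [hc.eventually (gt_mem_nhds h5)] with θ h6
      exact (hlt_iff a θ).1 h6
    · have h5 : s < u (a, θ₀) := by
        by_contra h6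
        exact absurd ((hle_iff a θ₀).1 (not_lt.1 h6)) (not_le.2 ha)
      have hc : ContinuousAt (fun θ => u (a, θ)) θ₀ := by fun_prop
      filter_upwards [hc.eventually (lt_mem_nhds h5)] with θ h6
      by_contra h7
      exact absurd ((hle_iff a θ).2 (not_lt.1 h7)) (not_le.2 h6)
  have hZ1per : ∀ τ θ : ℝ, D1 Z (τ, θ + 2 * π) = D1 Z (τ, θ) := by
    intro τ θ
    have d1 := hasDerivAt_D1 (hZd (τ, θ + 2 * π))
    have d2 := hasDerivAt_D1 (hZd (τ, θ))
    have e : (fun τ => Z (τ, θ + 2 * π)) = fun τ => Z (τ, θ) := by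
      funext σ
      exact z3 σ θ
    rw [e] at d1
    exact d1.unique d2
  have huper : ∀ τ θ : ℝ, u (τ, θ + 2 * π) = u (τ, θ) := by
    intro τ θ
    simp only [hu, z3, hZ1per]
  have hTper : ∀ θ, T (θ + 2 * π) = T θ := by
    intro θ
    apply le_antisymm
    · rw [← hle_iff, ← huper, hTs]
    · rw [← hle_iff, huper, hTs]
  have hWper : ∀ τ θ : ℝ, W (τ, θ + 2 * π) = W (τ, θ) := by
    intro τ θ
    simp only [hW, PP, z3, hper]
  have hbelow : ∀ z : ℝ × ℝ, z.1 ≤ T z.2 → z ∈ O := by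
    intro z hz
    have : u (z.1, z.2) ≤ s := (hle_iff z.1 z.2).2 hz
    exact lt_of_le_of_lt this hss'
  have hThigh : ∀ θ, T θ ≤ τhigh := by
    intro θ
    by_contra h5
    have := (hle_iff τhigh θ).2 (not_le.1 h5).le
    have h6 := hhigh τhigh θ le_rfl
    linarith
  obtain ⟨_, Hm, _, hHm0, hHm⟩ := periodic_bounds (f := fun θ => |H θ| + 1)
    (hH.continuous.abs.add continuous_const) (fun θ => by simp only [hper])
    (fun θ => by positivity)
  have hdec : ∃ A' γ' : ℝ, 0 < γ' ∧ ∀ z : ℝ × ℝ, z.1 ≤ T z.2 →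
      |W z + 1| ≤ A' * Real.exp (γ' * z.1) := by
    refine ⟨Hm * Real.exp ((1 - γ) * τhigh) + A, γ, hγ0, ?_⟩
    rintro ⟨τ, θ⟩ hz
    have q1 : W (τ, θ) + 1 = PP H (τ, θ) + (1 - Z (τ, θ)) := by simp only [hW]; ring
    have q2 : |1 - Z (τ, θ)| ≤ A * Real.exp (γ * τ) := by
      rw [abs_of_nonneg (sub_nonneg.2 (z2 _).2)]
      have := z7 (τ, θ)
      simp only at this
      linarith
    have q3 : |PP H (τ, θ)| ≤ Hm * Real.exp ((1 - γ) * τhigh) * Real.exp (γ * τ) := by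
      unfold PP
      rw [abs_mul, abs_of_pos (Real.exp_pos _)]
      have q4 : |H θ| ≤ Hm := by
        have := (hHm θ).2
        linarith
      have q5 : Real.exp τ ≤ Real.exp ((1 - γ) * τhigh) * Real.exp (γ * τ) := by
        rw [← Real.exp_add]
        apply Real.exp_le_exp.2
        have q6 : τ ≤ τhigh := le_trans hz (hThigh θ)
        nlinarith [mul_nonneg (sub_nonneg.2 hγ1.le) (sub_nonneg.2 q6)]
      calc Real.exp τ * |H θ| ≤ (Real.exp ((1 - γ) * τhigh) * Real.exp (γ * τ)) * Hm :=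
            mul_le_mul q5 q4 (abs_nonneg _) (by positivity)
        _ = _ := by ring
    rw [q1]
    refine (abs_add_le _ _).trans ?_
    simp only
    rw [add_mul]
    exact add_le_add q3 q2
  obtain ⟨C, hC, -⟩ := hl κ W T V s hκ hκ1 hspos hs1.le hVo hWs hLW hWper hTc hTper
    (fun z hz => hOV (hbelow z hz)) hdec (fun θ => by rw [hWu, hTs])
    (fun z hz => hψpos z (hbelow z hz))
  refine ⟨C, fun θ => ?_⟩
  have hlev := hTs θ
  simp only [hu] at hlev
  have hn := hZneg (T θ) θ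
  have hCH : C.H θ = H θ + Real.exp (-T θ) * (-D1 Z (T θ, θ)) := by
    rw [hC θ, hW1]
    simp only [PP]
    rw [mul_sub, ← mul_assoc, ← Real.exp_add, neg_add_cancel, Real.exp_zero]
    ring
  rw [hCH]
  have hexp : Real.exp (-T θ) ≤ B := by
    rw [hB]
    apply Real.exp_le_exp.2
    rw [le_div_iff₀ hγ0]
    have q1 := hup (T θ) θ
    rw [hTs] at q1
    have q2 : (1 : ℝ) ≤ 2 * A * Real.exp (γ * T θ) := by linarith
    have q3 := Real.log_le_log one_pos q2
    rw [Real.log_one, Real.log_mul (by positivity) (Real.exp_pos _).ne', Real.log_exp] at q3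
    linarith
  constructor
  · have : 0 ≤ Real.exp (-T θ) * (-D1 Z (T θ, θ)) :=
      mul_nonneg (Real.exp_pos _).le (by linarith)
    linarith
  · have q1 : -D1 Z (T θ, θ) ≤ dl := by
      have := (z2 (T θ, θ)).1
      linarith
    have q2 : Real.exp (-T θ) * (-D1 Z (T θ, θ)) ≤ B * dl :=
      mul_le_mul hexp q1 (by linarith) hB0.le
    linarith

end Pool.Agent.Helper50.PCap
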